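import Pool.Agent.Helper68.LI.Basic0

/-!
# LI-03: `p`-subgroups of `U T` (MP_5ecade_al, project LI)

First: a `p`-element `t` of `TT P N` lies in `P` (`h.quad`, as `t` commutes with `P`, `BN0.tt_comm`). `x ∈ Q` is `x = u t`; `B = {u t}` is a group and
`u t ↦ t` a homomorphism `B → T` (`U ∩ T = 1`: `h.tt_inter`; `T` normalizes `U`: `h.normT`), so `t` is a `p`-element (`x ^ p ^ k = 1`, `x ^ m = u_m t ^ m` with
`u_m ∈ U` by induction on `m`; then `t ^ p ^ k ∈ U ∩ T = 1`), so `t ∈ P`: every `x ∈ Q` is `u y` with `u ∈ U`, `y ∈ P`.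
Let `Q` act by left multiplication on the set `S` of the left cosets `u P`, `u ∈ U`, in `K ⧸ P` (stable: `x u P = u₁ y u P = u₁ (y u y⁻¹) P`). `|S| = |U|` (`u P = u' P`
gives `u⁻¹ u' ∈ U ∩ P = 1`) and `|U| ≡ 1 mod p` (`h.card_U`; `not_dvd_of_modEq_one`), so there is a fixed coset `u P` (`IsPGroup.nonempty_fixed_point_of_prime_not_dvd_card`,
see `actS`, `exists_fix` in Helper81/TD/Basic.lean): `u⁻¹ x u ∈ P` for all `x ∈ Q`. The converse: the injective map `x ↦ u⁻¹ x u` from `Q` to `P` is onto as `|Q| = |P|`.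
-/

set_option autoImplicit false

namespace Pool.Agent.Helper68.LI

open Pool.Agent.Helper81.TD

open scoped commutatorElement

private theorem sylp_pow {K : Type} [Group K] {p : ℕ} {P U N : Subgroup K} (h : BN0 p P U N)
    {u t : K} (hu : u ∈ U) (ht : t ∈ TT P N) (m : ℕ) : ∃ v ∈ U, (u * t) ^ m = v * t ^ m := by
  induction m with
  | zero => exact ⟨1, U.one_mem, by simp⟩
  | succ m ih =>
    obtain ⟨v, hv, e⟩ := ih
    refine ⟨v * (t ^ m * u * (t ^ m)⁻¹), U.mul_mem hv (h.normT (pow_mem ht m) hu), ?_⟩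
    rw [pow_succ, e, pow_succ]
    group

private theorem sylp_mem {K : Type} [Group K] {p : ℕ} {P U N : Subgroup K} (h : BN0 p P U N)
    {x u t : K} (hu : u ∈ U) (ht : t ∈ TT P N) (e : x = u * t) (hx : ∃ k : ℕ, x ^ p ^ k = 1) :
    t ∈ P := by
  obtain ⟨k, hk⟩ := hx
  obtain ⟨v, hv, e1⟩ := sylp_pow h hu ht (p ^ k)
  rw [← e, hk] at e1
  have h1 : t ^ p ^ k ∈ U := by
    have e2 : t ^ p ^ k = v⁻¹ := eq_inv_of_mul_eq_one_right e1.symm
    rw [e2]
    exact U.inv_mem hv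
  have h2 : t ^ p ^ k = 1 := h.tt_inter (pow_mem ht _) h1
  refine h.quad t ht.1 ⟨k, h2⟩ fun y hy => ?_
  have h3 : ⁅y, t⁆ = 1 := commutatorElement_eq_one_iff_mul_comm.mpr (BN0.tt_comm hy ht)
  rw [h3]
  exact commutatorElement_one_left t

theorem BN0.conj_P {K : Type} [Group K] [Finite K] {p : ℕ} [Fact p.Prime] {P U N : Subgroup K}
    (h : BN0 p P U N) (Q : Subgroup K) (hQ : IsPGroup p Q) (hc : Nat.card Q = Nat.card P)
    (hB : ∀ x ∈ Q, ∃ u ∈ U, ∃ t ∈ TT P N, x = u * t) : ∃ u ∈ U, ∀ x, u⁻¹ * x * u ∈ P ↔ x ∈ Q := by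
  classical
  have key : ∀ x ∈ Q, ∃ u ∈ U, ∃ y ∈ P, x = u * y := by
    intro x hx
    obtain ⟨u, hu, t, ht, e⟩ := hB x hx
    refine ⟨u, hu, t, sylp_mem h hu ht e ?_, e⟩
    obtain ⟨k, hk⟩ := hQ ⟨x, hx⟩
    exact ⟨k, congrArg Subtype.val hk⟩
  have hUP : ∀ x, x ∈ P → x ∈ U → x = 1 := fun x hx hx' => h.tt_inter (h.mem_tt hx) hx'
  let S : SubMulAction Q (K ⧸ P) :=
    { carrier := {c | ∃ u ∈ U, c = (QuotientGroup.mk u : K ⧸ P)}
      smul_mem' := by
        rintro ⟨x, hx⟩ _ ⟨u, hu, rfl⟩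
        obtain ⟨v, hv, y, hy, e⟩ := key x hx
        refine ⟨v * (y * u * y⁻¹), U.mul_mem hv (h.normP hy hu), ?_⟩
        change (QuotientGroup.mk (x * u) : K ⧸ P) = _
        rw [QuotientGroup.eq, e]
        have e2 : (v * y * u)⁻¹ * (v * (y * u * y⁻¹)) = y⁻¹ := by group
        rw [e2]
        exact P.inv_mem hy }
  have hS : Nat.card S = Nat.card U := by
    symm
    refine Nat.card_congr (Equiv.ofBijective
      (fun u : U => (⟨(QuotientGroup.mk (u : K) : K ⧸ P), u, u.2, rfl⟩ : S)) ⟨?_, ?_⟩)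
    · intro u u' he
      have h1 : (QuotientGroup.mk (u : K) : K ⧸ P) = QuotientGroup.mk (u' : K) :=
        congrArg Subtype.val he
      rw [QuotientGroup.eq] at h1
      have h2 := hUP _ h1 (U.mul_mem (U.inv_mem u.2) u'.2)
      exact Subtype.ext (inv_mul_eq_one.mp h2)
    · rintro ⟨_, u, hu, rfl⟩
      exact ⟨⟨u, hu⟩, rfl⟩
  obtain ⟨s, hs⟩ := hQ.nonempty_fixed_point_of_prime_not_dvd_card S (by
    rw [hS]
    exact not_dvd_of_modEq_one h.card_U)
  obtain ⟨_, u, hu, rfl⟩ := s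
  have hin : ∀ x ∈ Q, u⁻¹ * x * u ∈ P := by
    intro x hx
    have h1 : (QuotientGroup.mk (x * u) : K ⧸ P) = QuotientGroup.mk u :=
      congrArg Subtype.val (hs ⟨x, hx⟩)
    have h2 := QuotientGroup.eq.mp h1.symm
    rwa [← mul_assoc] at h2
  refine ⟨u, hu, fun x => ⟨fun hx => ?_, fun hx => hin x hx⟩⟩
  have hbij : Function.Bijective (fun q : Q => (⟨u⁻¹ * (q : K) * u, hin q q.2⟩ : P)) := by
    refine Function.Injective.bijective_of_nat_card_le ?_ hc.ge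
    intro a b hab
    have h1 : u⁻¹ * (a : K) * u = u⁻¹ * (b : K) * u := congrArg Subtype.val hab
    exact Subtype.ext (mul_left_cancel (mul_right_cancel h1))
  obtain ⟨q, hq⟩ := hbij.2 ⟨u⁻¹ * x * u, hx⟩
  have h1 : u⁻¹ * (q : K) * u = u⁻¹ * x * u := congrArg Subtype.val hq
  have h2 : (q : K) = x := mul_left_cancel (mul_right_cancel h1)
  rw [← h2]
  exact q.2

end Pool.Agent.Helper68.LI
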