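import Pool.Agent.Helper68.LI.SylU
import Pool.Agent.Helper68.LI.SylP

/-!
# LI-04: the condition on automorphisms follows (MP_5ecade_al, project LI)
-/

set_option autoImplicit false

namespace Pool.Agent.Helper68.LI

open Pool.Agent.Helper81.TD

/-- two Sylow subgroups of which one is the image of the other under `α` are conjugate -/
private theorem conj_of_sylow {K : Type} [Group K] [Finite K] {r : ℕ} [Fact r.Prime] (S : Sylow r K)
    (α : MulAut K) : ∃ g : K, ∀ x, g⁻¹ * α x * g ∈ (S : Subgroup K) ↔ x ∈ (S : Subgroup K) := by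
  obtain ⟨g, hg⟩ := MulAction.exists_smul_eq K S (α • S)
  refine ⟨g, fun x => ?_⟩
  have h1 : α x ∈ ((α • S : Sylow r K) : Subgroup K) ↔ x ∈ (S : Subgroup K) := by
    rw [Sylow.pointwise_smul_def, Subgroup.mem_pointwise_smul_iff_inv_smul_mem, MulAut.smul_def,
      MulAut.inv_apply_self]
  rw [← h1, ← hg, Sylow.coe_subgroup_smul, Subgroup.mem_pointwise_smul_iff_inv_smul_mem,
    ← map_inv, MulAut.smul_def, MulAut.conj_apply, inv_inv]

theorem Ch.aut {K : Type} [Group K] [Finite K] {p r : ℕ} [Fact p.Prime] [Fact r.Prime]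
    {P U N : Subgroup K} (h : Ch p r P U N) (α : MulAut K) (hα : ∀ x, α x ∈ P ↔ x ∈ P) :
    ∃ n ∈ N, ∀ x, n⁻¹ * α x * n ∈ U ↔ x ∈ U := by
  obtain ⟨S, hS⟩ := h.bn.sylow_U h.rgroup h.tor
  obtain ⟨g, hg⟩ := conj_of_sylow S α
  rw [hS] at hg
  -- the conjugate of `P` in `U T`
  let Q : Subgroup K := P.comap (MulAut.conj g).toMonoidHom
  have hQ : ∀ x, x ∈ Q ↔ g * x * g⁻¹ ∈ P := fun x => Iff.rfl
  have hB : ∀ x ∈ Q, ∃ u ∈ U, ∃ t ∈ TT P N, x = u * t := by
    intro x hx
    refine h.bn.norm_U fun u hu => ?_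
    have hx' : α⁻¹ (g * x * g⁻¹) ∈ P := (inv_stab hα _).2 ((hQ x).1 hx)
    have hu' : α⁻¹ (g * u * g⁻¹) ∈ U := by
      rw [← hg, MulAut.apply_inv_self]
      convert hu using 1
      group
    have h2 := h.bn.normP hx' hu'
    have h3 := (hg _).2 h2
    rw [map_mul, map_mul, map_inv, MulAut.apply_inv_self, MulAut.apply_inv_self] at h3
    convert h3 using 1
    group
  have hcard : Nat.card Q = Nat.card P := by
    refine Nat.card_congr ⟨fun x => ⟨g * x.1 * g⁻¹, x.2⟩, fun y => ⟨g⁻¹ * y.1 * g, ?_⟩, fun x => ?_,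
      fun y => ?_⟩
    · rw [hQ]
      convert y.2 using 1
      group
    · apply Subtype.ext
      change g⁻¹ * (g * x.1 * g⁻¹) * g = x.1
      group
    · apply Subtype.ext
      change g * (g⁻¹ * y.1 * g) * g⁻¹ = y.1
      group
  have hQp : IsPGroup p Q := h.bn.pgroup.comap_of_injective _ (MulAut.conj g).injective
  obtain ⟨u, hu, h4⟩ := h.bn.conj_P Q hQp hcard hB
  have h5 : ∀ x, (g * u) * x * (g * u)⁻¹ ∈ P ↔ x ∈ P := by
    intro x
    have h6 := h4 (u * x * u⁻¹)
    rw [hQ] at h6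
    have e1 : u⁻¹ * (u * x * u⁻¹) * u = x := by group
    have e2 : g * (u * x * u⁻¹) * g⁻¹ = (g * u) * x * (g * u)⁻¹ := by group
    rw [e1, e2] at h6
    exact h6.symm
  refine ⟨g * u, ?_, fun x => ?_⟩
  · refine h.bn.normalizer_le (fun x hx => ?_) fun x hx => (h5 x).2 hx
    rw [← h5]
    convert hx using 1
    group
  · rw [← hg x]
    constructor
    · intro h7
      have h8 := U.mul_mem (U.mul_mem hu h7) (U.inv_mem hu)
      convert h8 using 1
      group
    · intro h7
      have h8 := U.mul_mem (U.mul_mem (U.inv_mem hu) h7) hu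
      convert h8 using 1
      group

theorem Ch.toBN {K : Type} [Group K] [Finite K] {p r : ℕ} [Fact p.Prime] [Fact r.Prime]
    {P U N : Subgroup K} (h : Ch p r P U N) : BN p P U N where
  pgroup := h.bn.pgroup
  comm := h.bn.comm
  le := h.bn.le
  norm := h.bn.norm
  normU := h.bn.normU
  fix := h.bn.fix
  cover := h.bn.cover
  gen := h.bn.gen
  quad := h.bn.quad
  aut α hα := h.aut α hα

end Pool.Agent.Helper68.LI
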