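import Mathlib

/-!
# LI-08: averaging (MP_5ecade_al, project LI)

`ν a = ∏ x : P, x • a` is a homomorphism, `ν a` is fixed by `P` (`Finset.prod` over the group, `Equiv.mulLeft`), so `ν a ∈ Z` by `h2`. `|P|` is a power of `p`
(`IsPGroup.iff_card`), so prime to `|Z|`; let `m |P| ≡ 1 mod |Z|` (e.g. `Nat.Coprime` and `Nat.exists_mul_mod_eq_one_of_coprime` or `Int.gcd_eq_gcd_ab`; or `powCoprime`), `ζ a = (ν a) ^ m`.
`ζ z = z ^ (|P| m) = z`. `ζ (ψ a)`: `ν (ψ a) = ψ (ν a) = ν a` as `ν a ∈ Z`.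
-/

set_option autoImplicit false

namespace Pool.Agent.Helper68.LI

theorem exists_avg {P A : Type} [Group P] [Finite P] [CommGroup A] [MulDistribMulAction P A]
    {p : ℕ} [Fact p.Prime] (hP : IsPGroup p P) (Z : Subgroup A) [Finite Z]
    (hz : ¬ p ∣ Nat.card Z) (h1 : ∀ z ∈ Z, ∀ x : P, x • z = z)
    (h2 : ∀ a : A, (∀ x : P, x • a = a) → a ∈ Z) :
    ∃ ζ : A →* A, (∀ a, ζ a ∈ Z) ∧ (∀ z ∈ Z, ζ z = z) ∧ ∀ ψ : A →* A, (∀ z ∈ Z, ψ z = z) →
      (∀ (x : P) (a : A), ψ (x • a) = x • ψ a) → ∀ a, ζ (ψ a) = ζ a := by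
  classical
  haveI : Fintype P := Fintype.ofFinite P
  let ν : A →* A :=
    { toFun := fun a => ∏ x : P, x • a
      map_one' := by simp
      map_mul' := fun a b => by simp only [smul_mul', Finset.prod_mul_distrib] }
  have hν : ∀ a, ν a = ∏ x : P, x • a := fun a => rfl
  have hfix : ∀ a (y : P), y • ν a = ν a := by
    intro a y
    rw [hν, Finset.smul_prod']
    simp only [smul_smul]
    exact Fintype.prod_equiv (Equiv.mulLeft y) _ _ (fun x => rfl)
  have hνZ : ∀ a, ν a ∈ Z := fun a => h2 _ (hfix a)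
  obtain ⟨k, hk⟩ := IsPGroup.iff_card.mp hP
  have hcop : Nat.Coprime (Nat.card P) (Nat.card Z) := by
    rw [hk]
    exact Nat.Coprime.pow_left k ((Nat.Prime.coprime_iff_not_dvd Fact.out).mpr hz)
  have hpow : ∀ z ∈ Z, z ^ Nat.card Z = 1 := by
    intro z hzZ
    have h := pow_card_eq_one' (x := (⟨z, hzZ⟩ : Z))
    have h' := congrArg Subtype.val h
    rwa [Subgroup.coe_pow, Subgroup.coe_one] at h'
  obtain ⟨m, hm⟩ : ∃ m : ℕ, ∀ z ∈ Z, z ^ (Nat.card P * m) = z := by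
    have hg := Nat.gcd_eq_gcd_ab (Nat.card P) (Nat.card Z)
    rw [hcop] at hg
    refine ⟨((Nat.gcdA (Nat.card P) (Nat.card Z)) % (Nat.card Z : ℤ)).toNat, ?_⟩
    intro z hzZ
    have hZ0 : (Nat.card Z : ℤ) ≠ 0 := by
      have := Nat.card_pos (α := Z)
      omega
    have h0 : 0 ≤ (Nat.gcdA (Nat.card P) (Nat.card Z)) % (Nat.card Z : ℤ) := Int.emod_nonneg _ hZ0
    set g := Nat.gcdA (Nat.card P) (Nat.card Z) with hgdef
    set b := Nat.gcdB (Nat.card P) (Nat.card Z) with hbdef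
    have hc : (((Nat.card P * (g % (Nat.card Z : ℤ)).toNat : ℕ) : ℤ)) =
        1 + (Nat.card Z : ℤ) * (-b - (Nat.card P : ℤ) * (g / (Nat.card Z : ℤ))) := by
      push_cast
      rw [Int.toNat_of_nonneg h0]
      have h3 := Int.emod_add_mul_ediv g (Nat.card Z : ℤ)
      have h4 : (1 : ℤ) = (Nat.card P : ℤ) * g + (Nat.card Z : ℤ) * b := by exact_mod_cast hg
      have h5 : g % (Nat.card Z : ℤ) = g - (Nat.card Z : ℤ) * (g / (Nat.card Z : ℤ)) := by linarith
      rw [h5]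
      linear_combination -h4
    have hz1 : z ^ ((Nat.card Z : ℤ)) = 1 := by
      rw [zpow_natCast]; exact hpow z hzZ
    rw [← zpow_natCast, hc, zpow_add, zpow_one, zpow_mul, hz1, one_zpow, mul_one]
  refine ⟨{ toFun := fun a => ν a ^ m, map_one' := by simp, map_mul' := fun a b => by
              rw [map_mul, mul_pow] }, ?_, ?_, ?_⟩
  · intro a
    exact Z.pow_mem (hνZ a) m
  · intro z hzZ
    show ν z ^ m = z
    rw [hν, Finset.prod_congr rfl (fun x _ => h1 z hzZ x), Finset.prod_const, Finset.card_univ,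
      ← pow_mul, ← Nat.card_eq_fintype_card]
    exact hm z hzZ
  · intro ψ hψ hcomm a
    show ν (ψ a) ^ m = ν a ^ m
    congr 1
    rw [hν]
    simp only [← hcomm]
    rw [← map_prod]
    exact hψ _ (hνZ a)

end Pool.Agent.Helper68.LI
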