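import Pool.Agent.Helper68.LI.Defs
import Pool.Agent.Helper81.TD.GA

/-!
# LI: the first lemmas on `BN` for `BN0` (copies of lemmas from Helper81/TD/Basic.lean and GA.lean, whose
proofs do not use the condition on automorphisms)
-/

set_option autoImplicit false

open scoped commutatorElement

namespace Pool.Agent.Helper68.LI

open Pool.Agent.Helper81.TD

section basic

variable {K : Type} [Group K] {p : ℕ} {P U N : Subgroup K}

theorem BN0.mem_tt (h : BN0 p P U N) {x : K} (hx : x ∈ P) : x ∈ TT P N :=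
  ⟨h.le hx, Subgroup.mem_centralizer_iff.mpr fun y hy => h.comm y hy x hx⟩

theorem BN0.normP (h : BN0 p P U N) {x u : K} (hx : x ∈ P) (hu : u ∈ U) : x * u * x⁻¹ ∈ U :=
  (h.normU x (h.le hx)).mpr (h.mem_tt hx) u hu

theorem BN0.normT (h : BN0 p P U N) {t u : K} (ht : t ∈ TT P N) (hu : u ∈ U) : t * u * t⁻¹ ∈ U :=
  (h.normU t ht.1).mpr ht u hu

theorem BN0.normT' (h : BN0 p P U N) {t u : K} (ht : t ∈ TT P N) (hu : u ∈ U) : t⁻¹ * u * t ∈ U := by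
  simpa using h.normT (inv_mem ht) hu

theorem BN0.tt_comm {x t : K} (hx : x ∈ P) (ht : t ∈ TT P N) : x * t = t * x :=
  (Subgroup.mem_centralizer_iff.mp ht.2) x hx

theorem BN0.norm' (h : BN0 p P U N) {n x : K} (hn : n ∈ N) (hx : x ∈ P) : n⁻¹ * x * n ∈ P := by
  simpa using h.norm n⁻¹ (inv_mem hn) x hx

theorem BN0.tt_normal (h : BN0 p P U N) {n t : K} (hn : n ∈ N) (ht : t ∈ TT P N) :
    n * t * n⁻¹ ∈ TT P N := by
  refine ⟨N.mul_mem (N.mul_mem hn ht.1) (N.inv_mem hn),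
    Subgroup.mem_centralizer_iff.mpr fun x hx => ?_⟩
  have hy := h.norm' hn hx
  have := BN0.tt_comm hy ht
  calc x * (n * t * n⁻¹) = n * (n⁻¹ * x * n * t) * n⁻¹ := by group
    _ = n * (t * (n⁻¹ * x * n)) * n⁻¹ := by rw [this]
    _ = n * t * n⁻¹ * x := by group

theorem BN0.tt_normal' (h : BN0 p P U N) {n t : K} (hn : n ∈ N) (ht : t ∈ TT P N) :
    n⁻¹ * t * n ∈ TT P N := by
  simpa using h.tt_normal (inv_mem hn) ht

theorem BN0.tt_inter (h : BN0 p P U N) {t : K} (ht : t ∈ TT P N) (hu : t ∈ U) : t = 1 :=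
  h.fix t hu fun _ hx => BN0.tt_comm hx ht

theorem BN0.normal (h : BN0 p P U N) : ((TT P N).subgroupOf N).Normal :=
  ⟨fun _ ht n => Subgroup.mem_subgroupOf.mpr
    (h.tt_normal n.2 (Subgroup.mem_subgroupOf.mp ht))⟩

theorem BN0.sub_mod [Finite K] [Fact p.Prime] (h : BN0 p P U N) (V : Subgroup K)
    (hV : ∀ x ∈ P, ∀ v ∈ V, x * v * x⁻¹ ∈ V) (h1 : ∀ v ∈ V, (∀ x ∈ P, x * v = v * x) → v = 1) :
    Nat.card V ≡ 1 [MOD p] := by
  have h2 := modEq_fix h.pgroup (V : Set K) hV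
  have e : Nat.card {s : K // s ∈ (V : Set K) ∧ ∀ x ∈ P, x * s = s * x} = 1 := by
    rw [Nat.card_eq_one_iff_unique]
    refine ⟨⟨fun a b => ?_⟩, ⟨⟨1, V.one_mem, fun x _ => by simp⟩⟩⟩
    apply Subtype.ext
    rw [h1 a.1 a.2.1 a.2.2, h1 b.1 b.2.1 b.2.2]
  rw [e] at h2
  exact h2

theorem BN0.card_U [Finite K] [Fact p.Prime] (h : BN0 p P U N) : Nat.card U ≡ 1 [MOD p] :=
  h.sub_mod U (fun _ hx _ hu => h.normP hx hu) h.fix

theorem BN0.a1 [Finite K] [Fact p.Prime] (h : BN0 p P U N) {u u1 n t : K} (hu : u ∈ U)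
    (hu1 : u1 ∈ U) (hn : n ∈ N) (ht : t ∈ TT P N) (e : n * u * n⁻¹ = u1 * t) : t = 1 := by
  let V : Subgroup K :=
    { carrier := {x | n⁻¹ * x * n ∈ U ∧ ∃ w ∈ U, ∃ s ∈ TT P N, x = w * s}
      one_mem' := ⟨by simp [U.one_mem], 1, U.one_mem, 1, (TT P N).one_mem, by simp⟩
      mul_mem' := by
        rintro x y ⟨hx, w, hw, s, hs, rfl⟩ ⟨hy, w', hw', s', hs', rfl⟩
        refine ⟨?_, w * (s * w' * s⁻¹), U.mul_mem hw (h.normT hs hw'), s * s',
          (TT P N).mul_mem hs hs', by group⟩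
        have := U.mul_mem hx hy
        convert this using 1
        group
      inv_mem' := by
        rintro x ⟨hx, w, hw, s, hs, rfl⟩
        refine ⟨?_, s⁻¹ * w⁻¹ * s, h.normT' hs (U.inv_mem hw), s⁻¹, (TT P N).inv_mem hs, by group⟩
        have := U.inv_mem hx
        convert this using 1
        group }
  have hVs : ∀ x ∈ P, ∀ v ∈ V, x * v * x⁻¹ ∈ V := by
    rintro x hx v ⟨hv, w, hw, s, hs, rfl⟩
    refine ⟨?_, x * w * x⁻¹, h.normP hx hw, s, hs, ?_⟩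
    · have := h.normP (h.norm' hn hx) hv
      convert this using 1
      group
    · have := BN0.tt_comm hx hs
      calc x * (w * s) * x⁻¹ = x * w * x⁻¹ * (x * s) * x⁻¹ := by group
        _ = x * w * x⁻¹ * (s * x) * x⁻¹ := by rw [this]
        _ = x * w * x⁻¹ * s := by group
  have hV1 : ∀ v ∈ V, (∀ x ∈ P, x * v = v * x) → v = 1 := by
    rintro v ⟨hv, -⟩ hc
    have : n⁻¹ * v * n = 1 := by
      refine h.fix _ hv fun x hx => ?_
      have hy := hc _ (h.norm n hn x hx)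
      calc x * (n⁻¹ * v * n) = n⁻¹ * (n * x * n⁻¹ * v) * n := by group
        _ = n⁻¹ * (v * (n * x * n⁻¹)) * n := by rw [hy]
        _ = n⁻¹ * v * n * x := by group
    calc v = n * (n⁻¹ * v * n) * n⁻¹ := by group
      _ = 1 := by rw [this]; simp
  have hWc : Nat.card (V ⊓ U : Subgroup K) ≡ 1 [MOD p] :=
    h.sub_mod (V ⊓ U) (fun x hx v hv => ⟨hVs x hx v hv.1, h.normP hx hv.2⟩)
      (fun v hv => hV1 v hv.1)
  have hvV : u1 * t ∈ V := by
    refine ⟨?_, u1, hu1, t, ht, rfl⟩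
    rw [← e]
    convert hu using 1
    group
  let S : Set K := {z | z * (u1 * t)⁻¹ ∈ (V ⊓ U : Subgroup K)}
  have hSc : Nat.card S = Nat.card (V ⊓ U : Subgroup K) := by
    refine Nat.card_congr ⟨fun z => ⟨z.1 * (u1 * t)⁻¹, z.2⟩, fun w => ⟨w.1 * (u1 * t), ?_⟩,
      fun z => ?_, fun w => ?_⟩
    · change w.1 * (u1 * t) * (u1 * t)⁻¹ ∈ (V ⊓ U : Subgroup K)
      rw [mul_inv_cancel_right]
      exact w.2
    · exact Subtype.ext (inv_mul_cancel_right _ _)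
    · exact Subtype.ext (mul_inv_cancel_right _ _)
  have hSs : ∀ x ∈ P, ∀ s ∈ S, x * s * x⁻¹ ∈ S := by
    intro x hx s hs
    change x * s * x⁻¹ * (u1 * t)⁻¹ ∈ (V ⊓ U : Subgroup K)
    have h1 : x * (s * (u1 * t)⁻¹) * x⁻¹ ∈ (V ⊓ U : Subgroup K) :=
      ⟨hVs x hx _ hs.1, h.normP hx hs.2⟩
    have h2 : x * (u1 * t) * x⁻¹ * (u1 * t)⁻¹ ∈ (V ⊓ U : Subgroup K) := by
      refine ⟨V.mul_mem (hVs x hx _ hvV) (V.inv_mem hvV), ?_⟩
      have := BN0.tt_comm hx ht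
      have h3 : x * (u1 * t) * x⁻¹ * (u1 * t)⁻¹ = x * u1 * x⁻¹ * u1⁻¹ := by
        calc x * (u1 * t) * x⁻¹ * (u1 * t)⁻¹ = x * u1 * x⁻¹ * (x * t) * x⁻¹ * t⁻¹ * u1⁻¹ := by group
          _ = x * u1 * x⁻¹ * (t * x) * x⁻¹ * t⁻¹ * u1⁻¹ := by rw [this]
          _ = x * u1 * x⁻¹ * u1⁻¹ := by group
      rw [h3]
      exact U.mul_mem (h.normP hx hu1) (U.inv_mem hu1)
    have := (V ⊓ U : Subgroup K).mul_mem h1 h2
    convert this using 1
    group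
  obtain ⟨s, hs, hsc⟩ := exists_fix h.pgroup S hSs (by
    rw [hSc]
    exact not_dvd_of_modEq_one hWc)
  have hsV : s ∈ V := by
    have := V.mul_mem hs.1 hvV
    rwa [inv_mul_cancel_right] at this
  have hs1 := hV1 s hsV hsc
  subst hs1
  have hs' : (u1 * t)⁻¹ ∈ U := by
    have := hs.2
    simpa using this
  have ht' : t ∈ U := by
    have h5 := U.mul_mem (U.inv_mem hu1) (U.inv_mem hs')
    simpa using h5
  exact h.tt_inter ht ht'

theorem BN0.uniq_aux [Finite K] [Fact p.Prime] (h : BN0 p P U N) {n z : K} (hn : n ∈ N)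
    (hz : z ∈ TT P N) (hd : DC U n (n * z)) : z = 1 := by
  obtain ⟨u, hu, u', hu', e⟩ := hd
  refine h.a1 (u := u) (u1 := z * u'⁻¹ * z⁻¹) (n := n⁻¹) hu (h.normT hz (U.inv_mem hu'))
    (N.inv_mem hn) hz ?_
  calc n⁻¹ * u * n⁻¹⁻¹ = n⁻¹ * (u * n * u') * u'⁻¹ := by group
    _ = n⁻¹ * (n * z) * u'⁻¹ := by rw [← e]
    _ = z * u'⁻¹ * z⁻¹ * z := by group

/-- the elements of `N` represent different double cosets of `U` -/
theorem BN0.uniq [Finite K] [Fact p.Prime] (h : BN0 p P U N) {n n' : K} (hn : n ∈ N)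
    (hn' : n' ∈ N) (hd : DC U n n') : n = n' := by
  obtain ⟨u, hu, u', hu', e⟩ := hd
  have key : ∀ x ∈ P, n⁻¹ * x * n = n'⁻¹ * x * n' := by
    intro x hx
    have hy := h.norm' hn' hx
    have hz : (n⁻¹ * x * n) * (n'⁻¹ * x * n')⁻¹ ∈ P := P.mul_mem (h.norm' hn hx) (P.inv_mem hy)
    have h1 := h.uniq_aux hn (h.mem_tt hz) ⟨(x * u * x⁻¹)⁻¹ * u, U.mul_mem (U.inv_mem
      (h.normP hx hu)) hu, u' * ((n'⁻¹ * x * n') * u' * (n'⁻¹ * x * n')⁻¹)⁻¹,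
      U.mul_mem hu' (U.inv_mem (h.normP hy hu')), by
        have e2 : n = u⁻¹ * n' * u'⁻¹ := by rw [e]; group
        rw [e2]
        group⟩
    exact mul_inv_eq_one.mp h1
  have ht : n' * n⁻¹ ∈ TT P N := by
    refine ⟨N.mul_mem hn' (N.inv_mem hn), Subgroup.mem_centralizer_iff.mpr fun x hx => ?_⟩
    calc x * (n' * n⁻¹) = n' * (n'⁻¹ * x * n') * n⁻¹ := by group
      _ = n' * (n⁻¹ * x * n) * n⁻¹ := by rw [key x hx]
      _ = n' * n⁻¹ * x := by group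
  have hz : n⁻¹ * n' ∈ TT P N := by
    have := h.tt_normal' hn ht
    convert this using 1
    group
  have h1 := h.uniq_aux hn hz ⟨u, hu, u', hu', by rw [← e]; group⟩
  exact inv_mul_eq_one.mp h1

end basic

section basic2

variable {K : Type} [Group K] {p : ℕ} {P U N : Subgroup K}

/-- G2: the normalizer of `P` is `N` -/
theorem BN0.normalizer_le [Finite K] [Fact p.Prime] (h : BN0 p P U N) {g : K}
    (hg : ∀ x ∈ P, g⁻¹ * x * g ∈ P) (hg' : ∀ x ∈ P, g * x * g⁻¹ ∈ P) : g ∈ N := by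
  obtain ⟨n, hn, u, hu, u', hu', e⟩ := h.cover g
  -- the action of `P`
  have key : ∀ x ∈ P, ∀ v ∈ U, n⁻¹ * v⁻¹ * g ∈ U → n⁻¹ * x * n = g⁻¹ * x * g := by
    intro x hx v hv hv'
    have h1 : n * ((n⁻¹ * x * n) * (g⁻¹ * x * g)⁻¹) ∈ N :=
      N.mul_mem hn (h.le (P.mul_mem (h.norm' hn hx) (P.inv_mem (hg x hx))))
    have h2 : DC U n (n * ((n⁻¹ * x * n) * (g⁻¹ * x * g)⁻¹)) := by
      refine ⟨(x * v * x⁻¹)⁻¹ * v, U.mul_mem (U.inv_mem (h.normP hx hv)) hv,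
        (n⁻¹ * v⁻¹ * g) * ((g⁻¹ * x * g) * (n⁻¹ * v⁻¹ * g) * (g⁻¹ * x * g)⁻¹)⁻¹,
        U.mul_mem hv' (U.inv_mem (h.normP (hg x hx) hv')), ?_⟩
      group
    have h3 := h.uniq hn h1 h2
    have h4 : n⁻¹ * x * n * (g⁻¹ * x * g)⁻¹ = 1 := by
      have : n * 1 = n * (n⁻¹ * x * n * (g⁻¹ * x * g)⁻¹) := by rw [mul_one]; exact h3
      exact (mul_left_cancel this).symm
    exact mul_inv_eq_one.mp h4
  have key2 : ∀ x ∈ P, ∀ v ∈ U, n⁻¹ * v⁻¹ * g ∈ U → n⁻¹ * (x * v * x⁻¹)⁻¹ * g =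
      (g⁻¹ * x * g) * (n⁻¹ * v⁻¹ * g) * (g⁻¹ * x * g)⁻¹ := by
    intro x hx v hv hv'
    rw [← key x hx v hv hv']
    have e1 : (n⁻¹ * x * n)⁻¹ = (g⁻¹ * x * g)⁻¹ := by rw [key x hx v hv hv']
    calc n⁻¹ * (x * v * x⁻¹)⁻¹ * g = n⁻¹ * x * v⁻¹ * g * (g⁻¹ * x * g)⁻¹ := by group
      _ = n⁻¹ * x * v⁻¹ * g * (n⁻¹ * x * n)⁻¹ := by rw [e1]
      _ = _ := by group
  let W : Subgroup K := U ⊓ U.comap (MulAut.conj n⁻¹).toMonoidHom
  have hW : ∀ w, w ∈ W ↔ w ∈ U ∧ n⁻¹ * w * n ∈ U := by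
    intro w
    rw [Subgroup.mem_inf, Subgroup.mem_comap]
    have : (MulAut.conj n⁻¹).toMonoidHom w = n⁻¹ * w * n := by
      change MulAut.conj n⁻¹ w = _
      rw [MulAut.conj_apply, inv_inv]
    rw [this]
  have hWc : Nat.card W ≡ 1 [MOD p] := by
    refine h.sub_mod W (fun x hx w hw => ?_) fun w hw => h.fix w ((hW w).mp hw).1
    rw [hW] at hw ⊢
    refine ⟨h.normP hx hw.1, ?_⟩
    have := h.normP (h.norm' hn hx) hw.2
    convert this using 1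
    group
  let S : Set K := {v | v ∈ U ∧ n⁻¹ * v⁻¹ * g ∈ U}
  have hu1 : n⁻¹ * u⁻¹ * g ∈ U := by
    rw [e]
    convert hu' using 1
    group
  have hSc : Nat.card S = Nat.card W := by
    refine Nat.card_congr ⟨fun v => ⟨u⁻¹ * v.1, (hW _).mpr ⟨U.mul_mem (U.inv_mem hu) v.2.1, ?_⟩⟩,
      fun w => ⟨u * w.1, U.mul_mem hu ((hW _).mp w.2).1, ?_⟩, fun v => ?_, fun w => ?_⟩
    · have := U.mul_mem hu1 (U.inv_mem v.2.2)
      convert this using 1
      group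
    · have := U.mul_mem (U.inv_mem ((hW _).mp w.2).2) hu1
      convert this using 1
      group
    · exact Subtype.ext (mul_inv_cancel_left _ _)
    · exact Subtype.ext (inv_mul_cancel_left _ _)
  obtain ⟨v, ⟨hv, hv'⟩, hvc⟩ := exists_fix h.pgroup S (fun x hx v hv => ⟨h.normP hx hv.1, by
      rw [key2 x hx v hv.1 hv.2]
      exact h.normP (hg x hx) hv.2⟩) (by
    rw [hSc]
    exact not_dvd_of_modEq_one hWc)
  have hv1 := h.fix v hv hvc
  subst hv1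
  have h5 : n⁻¹ * (1 : K)⁻¹ * g = 1 := by
    refine h.fix _ hv' fun y hy => ?_
    have h6 := key2 (g * y * g⁻¹) (hg' y hy) 1 hv hv'
    have h7 : g⁻¹ * (g * y * g⁻¹) * g = y := by group
    rw [h7] at h6
    have h8 : (g * y * g⁻¹) * 1 * (g * y * g⁻¹)⁻¹ = 1 := by group
    rw [h8] at h6
    exact (eq_mul_inv_iff_mul_eq.mp h6).symm
  have : g = n := by
    have h9 : g = n * (n⁻¹ * (1 : K)⁻¹ * g) := by group
    rw [h9, h5, mul_one]
  rw [this]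
  exact hn

end basic2

end Pool.Agent.Helper68.LI
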