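import Pool.Agent.Helper81.TD.Defs

/-!
# Project LI (MP_5ecade_al): definitions

`BN0 p P U N`: the conditions of `BN` (Helper81/TD/Defs) except the one on automorphisms. `Ser T U`: the
group `U` has a central series of `T`-stable subgroups between whose factors there are no non-trivial
`T`-invariant pairings. `Ch p r P U N`: split BN-pair at `p` of characteristic `r` (the conditions on the
simple group alone). The goal (Main.lean): if `K` is finite, `K / Z(K) ≅ F`, `p` does not divide `|Z(K)|`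
and `F` satisfies `Ch p r P U N` then `K` satisfies `BN p`.
-/

set_option autoImplicit false

open scoped commutatorElement

namespace Pool.Agent.Helper68.LI

open Pool.Agent.Helper81.TD

variable {K : Type} [Group K]

/-- the conditions of `BN` except the one on automorphisms -/
structure BN0 (p : ℕ) (P U N : Subgroup K) : Prop where
  pgroup : IsPGroup p P
  comm : ∀ a ∈ P, ∀ b ∈ P, a * b = b * a
  le : P ≤ N
  norm : ∀ n ∈ N, ∀ x ∈ P, n * x * n⁻¹ ∈ P
  normU : ∀ n ∈ N, (∀ u ∈ U, n * u * n⁻¹ ∈ U) ↔ n ∈ TT P N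
  fix : ∀ u ∈ U, (∀ x ∈ P, x * u = u * x) → u = 1
  cover : ∀ g, ∃ n ∈ N, DC U n g
  gen : ∀ n ∈ N, n ∈ Subgroup.closure ({m | IsSim P U N m} ∪ (TT P N : Set K))
  quad : ∀ x ∈ N, (∃ k : ℕ, x ^ p ^ k = 1) → (∀ y ∈ P, ⁅⁅y, x⁆, x⁆ = 1) → x ∈ P

/-- Every `T`-invariant bimultiplicative map from `X × Y` to an abelian group which is trivial on
`X₀ × Y` and on `X × Y₀` (and, if `a` holds, alternating) is trivial. -/
def NoPair (T X₀ X Y₀ Y : Subgroup K) (a : Prop) : Prop :=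
  ∀ (A : Type) [CommGroup A] (β : K → K → A),
    (∀ x ∈ X, ∀ x' ∈ X, ∀ y ∈ Y, β (x * x') y = β x y * β x' y) →
    (∀ x ∈ X, ∀ y ∈ Y, ∀ y' ∈ Y, β x (y * y') = β x y * β x y') →
    (∀ x ∈ X₀, ∀ y ∈ Y, β x y = 1) → (∀ x ∈ X, ∀ y ∈ Y₀, β x y = 1) →
    (∀ t ∈ T, ∀ x ∈ X, ∀ y ∈ Y, β (t * x * t⁻¹) (t * y * t⁻¹) = β x y) →
    (a → ∀ x ∈ X, β x x = 1) →
    ∀ x ∈ X, ∀ y ∈ Y, β x y = 1

/-- `V 0 ≤ V 1 ≤ ... ≤ V m` is a `T`-stable central series (modulo `V 0`) of `V m`, and there are no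
non-trivial `T`-invariant pairings of different factors and no non-trivial `T`-invariant alternating
pairings of a factor with itself. -/
structure SerV (T : Subgroup K) (m : ℕ) (V : ℕ → Subgroup K) : Prop where
  le : ∀ i < m, V i ≤ V (i + 1)
  stab : ∀ i < m, ∀ t ∈ T, ∀ v ∈ V (i + 1), t * v * t⁻¹ ∈ V (i + 1)
  cent : ∀ i < m, ∀ u ∈ V m, ∀ v ∈ V (i + 1), ⁅u, v⁆ ∈ V i
  pair : ∀ i < m, ∀ j < m, NoPair T (V i) (V (i + 1)) (V j) (V (j + 1)) (i = j)

/-- split BN-pair at `p` of characteristic `r` -/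
structure Ch (p r : ℕ) (P U N : Subgroup K) : Prop where
  bn : BN0 p P U N
  rgroup : IsPGroup r U
  tor : ¬ r ∣ Nat.card (TT P N)
  ser : ∃ (m : ℕ) (V : ℕ → Subgroup K), V 0 = ⊥ ∧ V m = U ∧ SerV (TT P N) m V

/-- the lift: `f : K → F` is surjective, its kernel is the center of `K`, of order prime to `p`, and `Q`
is the subgroup of the `p`-elements over `P` -/
structure Lift {F : Type} [Group F] (p : ℕ) (f : K →* F) (P : Subgroup F) (Q : Subgroup K) : Prop where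
  surj : Function.Surjective f
  ker : ∀ x, f x = 1 ↔ x ∈ Subgroup.center K
  dvd : ¬ p ∣ Nat.card (Subgroup.center K)
  pgroup : IsPGroup p Q
  down : ∀ x ∈ Q, f x ∈ P
  up : ∀ y ∈ P, ∃ x ∈ Q, f x = y
  mem : ∀ x, f x ∈ P → (∃ k : ℕ, x ^ p ^ k = 1) → x ∈ Q
  comm : ∀ x ∈ Q, ∀ g, f x * f g = f g * f x → x * g = g * x

/-- `ζ` is a retraction of `W` onto the center of `K`, invariant under conjugation with the elements
of `V` and of `T` -/
structure Ret (V T W : Subgroup K) (ζ : K → K) : Prop where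
  mem : ∀ v ∈ W, ζ v ∈ Subgroup.center K
  mul : ∀ v ∈ W, ∀ w ∈ W, ζ (v * w) = ζ v * ζ w
  id : ∀ z ∈ Subgroup.center K, ζ z = z
  conjV : ∀ g ∈ V, ∀ v ∈ W, ζ (g * v * g⁻¹) = ζ v
  conjT : ∀ t ∈ T, ∀ v ∈ W, ζ (t * v * t⁻¹) = ζ v

end Pool.Agent.Helper68.LI
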