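import Pool.Agent.Helper68.LI.Defs

/-!
# LI-10: the commutator pairing (MP_5ecade_al, project LI)

Apply `hnp` to `A = Subgroup.center K` (a commutative group) and `β x y = ζ ⁅x, y⁆` (an element of the center for `x ∈ X`, `y ∈ W'`: `h.mem`, `hc`; put `β x y = 1` if it is not in the
center, e.g. with `Classical`/`dite`). `⁅x x', y⁆ = (x ⁅x', y⁆ x⁻¹) ⁅x, y⁆`, `⁅x, y y'⁆ = ⁅x, y⁆ (y ⁅x, y'⁆ y⁻¹)`: use `h.mul` and `h.conjV`. Trivial on `X₀`: `h0`. Trivial on `y ∈ W`: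
`⁅x, y⁆ = (x y x⁻¹) y⁻¹`, where `x y x⁻¹ = ⁅x, y⁆ y ∈ W`, so `ζ = ζ y ζ y⁻¹ = ζ 1 = 1` (`h.mul`, `h.conjV`, `h.id`). Invariance: `⁅t x t⁻¹, t y t⁻¹⁆ = t ⁅x, y⁆ t⁻¹`, `h.conjT`.
Alternating: `⁅x, x⁆ = 1`.
-/

set_option autoImplicit false

open scoped commutatorElement

namespace Pool.Agent.Helper68.LI

open Pool.Agent.Helper81.TD

theorem Ret.pair {K : Type} [Group K] {V T W W' X₀ X : Subgroup K} {ζ : K → K} {a : Prop}
    (h : Ret V T W ζ) (hW : W ≤ W') (hV : W' ≤ V) (hX : X ≤ V) (hX₀ : X₀ ≤ X)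
    (hc : ∀ g ∈ V, ∀ w ∈ W', ⁅g, w⁆ ∈ W) (h0 : ∀ x ∈ X₀, ∀ y ∈ W', ζ ⁅x, y⁆ = 1)
    (hnp : NoPair T X₀ X W W' a) : ∀ x ∈ X, ∀ y ∈ W', ζ ⁅x, y⁆ = 1 := by
  classical
  have hζ1 : ζ 1 = 1 := h.id 1 (Subgroup.one_mem _)
  have hconjW : ∀ g ∈ V, ∀ w ∈ W, g * w * g⁻¹ ∈ W := by
    intro g hg w hw
    have e : g * w * g⁻¹ = ⁅g, w⁆ * w := by
      rw [commutatorElement_def]
      group
    rw [e]
    exact W.mul_mem (hc g hg w (hW hw)) hw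
  have hcW : ∀ x ∈ X, ∀ y ∈ W', ⁅x, y⁆ ∈ W := fun x hx y hy => hc x (hX hx) y hy
  let β : K → K → Subgroup.center K := fun x y =>
    if hh : ζ ⁅x, y⁆ ∈ Subgroup.center K then ⟨ζ ⁅x, y⁆, hh⟩ else 1
  have hβ : ∀ x y, ⁅x, y⁆ ∈ W → ((β x y : Subgroup.center K) : K) = ζ ⁅x, y⁆ := by
    intro x y hxy
    have hh : ζ ⁅x, y⁆ ∈ Subgroup.center K := h.mem _ hxy
    change ((if hh : ζ ⁅x, y⁆ ∈ Subgroup.center K then (⟨ζ ⁅x, y⁆, hh⟩ : Subgroup.center K)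
      else 1 : Subgroup.center K) : K) = ζ ⁅x, y⁆
    rw [dif_pos hh]
  let _ : CommGroup (Subgroup.center K) :=
    { (inferInstance : Group (Subgroup.center K)) with
      mul_comm := fun u v => Subtype.ext (Subgroup.mem_center_iff.mp v.2 u.1) }
  have key := hnp (Subgroup.center K) β ?_ ?_ ?_ ?_ ?_ ?_
  · intro x hx y hy
    have h1 := key x hx y hy
    rw [← hβ x y (hcW x hx y hy), h1]
    rfl
  · intro x hx x' hx' y hy
    apply Subtype.ext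
    rw [Subgroup.coe_mul, hβ _ _ (hcW _ (X.mul_mem hx hx') _ hy), hβ _ _ (hcW _ hx _ hy),
      hβ _ _ (hcW _ hx' _ hy)]
    have e : ⁅x * x', y⁆ = (x * ⁅x', y⁆ * x⁻¹) * ⁅x, y⁆ := by
      rw [commutatorElement_def, commutatorElement_def, commutatorElement_def]
      group
    rw [e, h.mul _ (hconjW x (hX hx) _ (hcW _ hx' _ hy)) _ (hcW _ hx _ hy),
      h.conjV x (hX hx) _ (hcW _ hx' _ hy)]
    exact (Subgroup.mem_center_iff.mp (h.mem _ (hcW _ hx _ hy)) _)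
  · intro x hx y hy y' hy'
    apply Subtype.ext
    rw [Subgroup.coe_mul, hβ _ _ (hcW _ hx _ (W'.mul_mem hy hy')), hβ _ _ (hcW _ hx _ hy),
      hβ _ _ (hcW _ hx _ hy')]
    have e : ⁅x, y * y'⁆ = ⁅x, y⁆ * (y * ⁅x, y'⁆ * y⁻¹) := by
      rw [commutatorElement_def, commutatorElement_def, commutatorElement_def]
      group
    rw [e, h.mul _ (hcW _ hx _ hy) _ (hconjW y (hV hy) _ (hcW _ hx _ hy')),
      h.conjV y (hV hy) _ (hcW _ hx _ hy')]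
  · intro x hx y hy
    apply Subtype.ext
    rw [hβ _ _ (hcW _ (hX₀ hx) _ hy), h0 x hx y hy]
    rfl
  · intro x hx y hy
    apply Subtype.ext
    rw [hβ _ _ (hcW _ hx _ (hW hy))]
    have e : ⁅x, y⁆ = (x * y * x⁻¹) * y⁻¹ := by
      rw [commutatorElement_def]
    have h2 : ζ y * ζ y⁻¹ = 1 := by
      rw [← h.mul _ hy _ (W.inv_mem hy), mul_inv_cancel, hζ1]
    rw [e, h.mul _ (hconjW x (hX hx) _ hy) _ (W.inv_mem hy), h.conjV x (hX hx) _ hy, h2]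
    rfl
  · intro t ht x hx y hy
    apply Subtype.ext
    have e : ⁅t * x * t⁻¹, t * y * t⁻¹⁆ = t * ⁅x, y⁆ * t⁻¹ := by
      rw [commutatorElement_def, commutatorElement_def]
      group
    have h3 : ζ ⁅t * x * t⁻¹, t * y * t⁻¹⁆ = ζ ⁅x, y⁆ := by
      rw [e, h.conjT t ht _ (hcW _ hx _ hy)]
    have hh : ζ ⁅t * x * t⁻¹, t * y * t⁻¹⁆ ∈ Subgroup.center K := by
      rw [h3]
      exact h.mem _ (hcW _ hx _ hy)
    have h4 : ((β (t * x * t⁻¹) (t * y * t⁻¹) : Subgroup.center K) : K) =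
        ζ ⁅t * x * t⁻¹, t * y * t⁻¹⁆ := by
      change ((if hh : ζ ⁅t * x * t⁻¹, t * y * t⁻¹⁆ ∈ Subgroup.center K then
        (⟨ζ ⁅t * x * t⁻¹, t * y * t⁻¹⁆, hh⟩ : Subgroup.center K) else 1 : Subgroup.center K) : K) = _
      rw [dif_pos hh]
    rw [h4, h3, hβ _ _ (hcW _ hx _ hy)]
  · intro _ x hx
    apply Subtype.ext
    have e : ⁅x, x⁆ = 1 := commutatorElement_self x
    rw [hβ x x (by rw [e]; exact W.one_mem), e, hζ1]
    rfl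

end Pool.Agent.Helper68.LI
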