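import Pool.Agent.Helper68.LI.Step
import Pool.Agent.Helper68.LI.Pair

/-!
# LI-11: existence of the retraction (MP_5ecade_al, project LI)
-/

set_option autoImplicit false

open scoped commutatorElement

namespace Pool.Agent.Helper68.LI

open Pool.Agent.Helper81.TD

theorem exists_ret {K : Type} [Group K] [Finite K] {p : ℕ} [Fact p.Prime] {T : Subgroup K} {m : ℕ}
    {V : ℕ → Subgroup K} (hV : SerV T m V) (h0 : V 0 = Subgroup.center K)
    (hz : ¬ p ∣ Nat.card (Subgroup.center K)) (Q : Subgroup K) (hQ : IsPGroup p Q) (hQT : Q ≤ T)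
    (hQc : ∀ x ∈ Q, ∀ t ∈ T, x * t = t * x)
    (hf : ∀ i < m, ∀ v ∈ V (i + 1), (∀ x ∈ Q, ⁅x, v⁆ ∈ V i) → v ∈ V i) :
    ∃ ζ, Ret (V m) T (V m) ζ := by
  have hmono : ∀ i ≤ m, ∀ j ≤ i, V j ≤ V i := by
    intro i
    induction i with
    | zero =>
      intro _ j hj
      rw [Nat.le_zero.1 hj]
    | succ i ih =>
      intro hi j hj
      rcases Nat.lt_or_ge j (i + 1) with h | h
      · exact (ih (by omega) j (by omega)).trans (hV.le i (by omega))
      · rw [le_antisymm hj h]
  have hstab : ∀ i ≤ m, ∀ t ∈ T, ∀ v ∈ V i, t * v * t⁻¹ ∈ V i := by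
    intro i hi t ht v hv
    rcases i with _ | i
    · rw [h0] at hv ⊢
      rw [(Subgroup.mem_center_iff.1 hv t), mul_inv_cancel_right]
      exact hv
    · exact hV.stab i (by omega) t ht v hv
  have key : ∀ i ≤ m, ∃ ζ, Ret (V m) T (V i) ζ := by
    intro i
    induction i with
    | zero =>
      intro _
      refine ⟨fun x => x, ⟨fun v hv => ?_, fun v _ w _ => rfl, fun z _ => rfl, fun g _ v hv => ?_,
        fun g _ v hv => ?_⟩⟩
      · rwa [← h0]
      · rw [h0] at hv
        rw [(Subgroup.mem_center_iff.1 hv g), mul_inv_cancel_right]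
      · rw [h0] at hv
        rw [(Subgroup.mem_center_iff.1 hv g), mul_inv_cancel_right]
    | succ i ih =>
      intro hi
      obtain ⟨ζ, hζ⟩ := ih (by omega)
      have hp : ∀ j ≤ m, ∀ x ∈ V j, ∀ y ∈ V (i + 1), ζ ⁅x, y⁆ = 1 := by
        intro j
        induction j with
        | zero =>
          intro _ x hx y hy
          rw [h0] at hx
          have h1 : ⁅x, y⁆ = 1 := by
            rw [commutatorElement_eq_one_iff_mul_comm]
            exact (Subgroup.mem_center_iff.1 hx y).symm
          rw [h1]
          exact hζ.id 1 (one_mem _)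
        | succ j ihj =>
          intro hj
          exact hζ.pair (hV.le i (by omega)) (hmono m le_rfl (i + 1) hi) (hmono m le_rfl (j + 1) hj)
            (hV.le j (by omega)) (hV.cent i (by omega)) (ihj (by omega))
            (hV.pair j (by omega) i (by omega))
      exact hζ.step hz (by rw [← h0]; exact hmono i (by omega) 0 (by omega)) (hV.le i (by omega))
        (hmono m le_rfl (i + 1) hi) (hV.cent i (by omega)) (hp m le_rfl) (hstab i (by omega))
        (hstab (i + 1) hi) Q hQ hQT hQc (hf i (by omega))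
  exact key m le_rfl

end Pool.Agent.Helper68.LI
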