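import Pool.Agent.Helper68.LI.Defs

/-!
# LI-13: the lift of `BN0`, first part (MP_5ecade_al, project LI)

`mem_tt`: (→) `f x` commutes with `f '' Q = P`; (←) `l.comm`. `dc`: (→) apply `f`, `h1`. (←) `f x = a (f n) b` with `a, b ∈ U`; lifts `a', b' ∈ Ut` (`h2`), and `x = a' n b' z` with
`z` central (`l.ker`), so `x = a' (n z) b'`. `sim`: a lift `m` of a simple element of `F` is simple: for `n ∈ N.comap f`, `u ∈ Ut` apply the condition to `f n`, `f u`, lift `t` to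
`t' ∈ K` (`l.surj`, `mem_tt`), then `dc` gives `z` with `DC Ut (m n t' z) (m u n)` (or `DC Ut (n t' z) (m u n)`), and `t' z ∈ TT Q (N.comap f)`.
-/

set_option autoImplicit false

open scoped commutatorElement

namespace Pool.Agent.Helper68.LI

open Pool.Agent.Helper81.TD

variable {K F : Type} [Group K] [Group F] {p : ℕ} {f : K →* F} {P U N : Subgroup F}
  {Q Ut : Subgroup K}

theorem Lift.mem_tt (l : Lift p f P Q) {x : K} : x ∈ TT Q (N.comap f) ↔ f x ∈ TT P N := by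
  unfold TT
  rw [Subgroup.mem_inf, Subgroup.mem_inf, Subgroup.mem_comap]
  refine and_congr_right fun _ => ?_
  rw [Subgroup.mem_centralizer_iff, Subgroup.mem_centralizer_iff]
  constructor
  · intro h y hy
    obtain ⟨x', hx', rfl⟩ := l.up y hy
    rw [← map_mul, ← map_mul, h x' hx']
  · intro h y hy
    exact l.comm y hy x (h (f y) (l.down y hy))

theorem Lift.dc_down (h1 : ∀ u ∈ Ut, f u ∈ U) {n x : K} (h : DC Ut n x) : DC U (f n) (f x) := by
  obtain ⟨u, hu, u', hu', rfl⟩ := h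
  exact ⟨f u, h1 u hu, f u', h1 u' hu', by rw [map_mul, map_mul]⟩

theorem Lift.dc_up (l : Lift p f P Q) (h2 : ∀ u ∈ U, ∃ u' ∈ Ut, f u' = u) {n x : K}
    (h : DC U (f n) (f x)) : ∃ z ∈ Subgroup.center K, DC Ut (n * z) x := by
  obtain ⟨a, ha, b, hb, e⟩ := h
  obtain ⟨a', ha', rfl⟩ := h2 a ha
  obtain ⟨b', hb', rfl⟩ := h2 b hb
  refine ⟨n⁻¹ * a'⁻¹ * x * b'⁻¹, ?_, a', ha', b', hb', by group⟩
  rw [← l.ker]
  simp only [map_mul, map_inv, e]
  group

theorem Lift.sim (l : Lift p f P Q) (h1 : ∀ u ∈ Ut, f u ∈ U) (h2 : ∀ u ∈ U, ∃ u' ∈ Ut, f u' = u)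
    {m : K} (h : IsSim P U N (f m)) : IsSim Q Ut (N.comap f) m := by
  obtain ⟨hN, hT, hS, hX⟩ := h
  refine ⟨hN, fun h => hT (l.mem_tt.1 h), l.mem_tt.2 (by rw [map_mul]; exact hS), fun n hn u hu => ?_⟩
  obtain ⟨t, ht, hd⟩ := hX (f n) hn (f u) (h1 u hu)
  obtain ⟨t', rfl⟩ := l.surj t
  have key : ∀ z ∈ Subgroup.center K, t' * z ∈ TT Q (N.comap f) := by
    intro z hz
    rw [l.mem_tt, map_mul, (l.ker z).2 hz, mul_one]
    exact ht
  rcases hd with hd | hd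
  · rw [← map_mul, ← map_mul, ← map_mul, ← map_mul] at hd
    obtain ⟨z, hz, hz2⟩ := l.dc_up h2 hd
    exact ⟨t' * z, key z hz, Or.inl (by rw [← mul_assoc]; exact hz2)⟩
  · rw [← map_mul, ← map_mul, ← map_mul] at hd
    obtain ⟨z, hz, hz2⟩ := l.dc_up h2 hd
    exact ⟨t' * z, key z hz, Or.inr (by rw [← mul_assoc]; exact hz2)⟩

end Pool.Agent.Helper68.LI
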