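import Pool.Agent.Helper68.LI.Basic0

/-!
# LI-06: fixed points of `P` in quotients of `U` (MP_5ecade_al, project LI)

`S = {s | u⁻¹ s ∈ W}` (the coset `u W`) is stable under conjugation with `x ∈ P`: `u⁻¹ (x s x⁻¹) = u⁻¹ ⁅x, u⁆ u · x (u⁻¹ s) x⁻¹`, and `u⁻¹ w u ∈ W` for `w ∈ W` by `hn`.
`|S| = |W| ≡ 1 mod p` (`h.sub_mod W`, Basic0.lean), so `exists_fix` (Helper81/TD/Basic.lean) gives `s ∈ S` which commutes with `P`; `s = u (u⁻¹ s) ∈ U`, so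
`s = 1` by `h.fix`, and `u⁻¹ ∈ W`.
-/

set_option autoImplicit false

open scoped commutatorElement

namespace Pool.Agent.Helper68.LI

open Pool.Agent.Helper81.TD

theorem BN0.fix_mod {F : Type} [Group F] [Finite F] {p : ℕ} [Fact p.Prime] {P U N : Subgroup F}
    (h : BN0 p P U N) (W : Subgroup F) (hW : W ≤ U) (hP : ∀ x ∈ P, ∀ w ∈ W, x * w * x⁻¹ ∈ W)
    (hn : ∀ u ∈ U, ∀ w ∈ W, ⁅u, w⁆ ∈ W) {u : F} (hu : u ∈ U) (hx : ∀ x ∈ P, ⁅x, u⁆ ∈ W) :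
    u ∈ W := by
  have hc : ∀ w ∈ W, u⁻¹ * w * u ∈ W := by
    intro w hw
    have h1 := W.mul_mem (hn u⁻¹ (U.inv_mem hu) w hw) hw
    rw [commutatorElement_def] at h1
    have h2 : u⁻¹ * w * u⁻¹⁻¹ * w⁻¹ * w = u⁻¹ * w * u := by group
    rwa [h2] at h1
  let S : Set F := {s | u⁻¹ * s ∈ W}
  have hSc : Nat.card S = Nat.card W := by
    refine Nat.card_congr ⟨fun s => ⟨u⁻¹ * s.1, s.2⟩, fun w => ⟨u * w.1, ?_⟩,
      fun s => ?_, fun w => ?_⟩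
    · change u⁻¹ * (u * w.1) ∈ W
      rw [inv_mul_cancel_left]
      exact w.2
    · exact Subtype.ext (mul_inv_cancel_left _ _)
    · exact Subtype.ext (inv_mul_cancel_left _ _)
  have hSs : ∀ x ∈ P, ∀ s ∈ S, x * s * x⁻¹ ∈ S := by
    intro x hxP s hs
    change u⁻¹ * (x * s * x⁻¹) ∈ W
    have h1 := W.mul_mem (hc _ (hx x hxP)) (hP x hxP _ hs)
    rw [commutatorElement_def] at h1
    have h2 : u⁻¹ * (x * u * x⁻¹ * u⁻¹) * u * (x * (u⁻¹ * s) * x⁻¹) = u⁻¹ * (x * s * x⁻¹) := by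
      group
    rwa [h2] at h1
  have hWc : Nat.card W ≡ 1 [MOD p] := h.sub_mod W hP fun v hv => h.fix v (hW hv)
  obtain ⟨s, hs, hsc⟩ := exists_fix h.pgroup S hSs (by
    rw [hSc]
    exact not_dvd_of_modEq_one hWc)
  have hsU : s ∈ U := by
    have h1 := U.mul_mem hu (hW hs)
    rwa [mul_inv_cancel_left] at h1
  have hs1 := h.fix s hsU hsc
  subst hs1
  have h1 : u⁻¹ * 1 ∈ W := hs
  rw [mul_one] at h1
  exact inv_mem_iff.mp h1

end Pool.Agent.Helper68.LI
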