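import Pool.Agent.Helper68.LI.Fields

/-!
# LI-14: the lift of `BN0`, second part (MP_5ecade_al, project LI)

`pgroup`: `l.pgroup`. `comm`: `l.comm` and `h.comm` (`l.down`). `le`: `l.down`, `h.le`. `norm`: `n x n⁻¹` has `p`-power order and `f (n x n⁻¹) ∈ P`: `l.mem`. `normU`: `n ∈ TT` normalizes `Ut` by `h4`;
conversely if `n` normalizes `Ut` then `f n` normalizes `U` (`h1`, `h2`), so `f n ∈ TT P N` (`h.normU`), `l.mem_tt`. `fix`: `f u` commutes with `P` (`l.up`), so `f u = 1` (`h.fix`), so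
`u = 1` (`h3`). `cover`: `h.cover (f g)`, `l.surj`, `l.dc_up` (`n z ∈ N.comap f` as `f z = 1`). `gen`: `h.gen (f n)`; the closure in `F` is contained in the image (`Subgroup.map f`) of
the closure in `K` (`l.sim`, `l.surj`, `l.mem_tt`; model: the field `gen` of `BN.comap` in Helper81/TD/GB.lean), so `f n = f c` with `c` in the closure, and `c⁻¹ n` is central,
so in `TT Q (N.comap f)`. `quad`: apply `f`: `h.quad (f x)` (`map_commutatorElement`), then `l.mem`.
-/

set_option autoImplicit false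

open scoped commutatorElement

namespace Pool.Agent.Helper68.LI

open Pool.Agent.Helper81.TD

theorem bn0_lift {K F : Type} [Group K] [Group F] {p : ℕ} {f : K →* F} {P U N : Subgroup F}
    {Q Ut : Subgroup K} (h : BN0 p P U N) (l : Lift p f P Q) (h1 : ∀ u ∈ Ut, f u ∈ U)
    (h2 : ∀ u ∈ U, ∃ u' ∈ Ut, f u' = u) (h3 : ∀ u ∈ Ut, f u = 1 → u = 1)
    (h4 : ∀ t, f t ∈ TT P N → ∀ u ∈ Ut, t * u * t⁻¹ ∈ Ut) : BN0 p Q Ut (N.comap f) := by
  have hkap : ∀ z ∈ Subgroup.center K, f z = 1 := fun z hz => (l.ker z).2 hz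
  refine ⟨l.pgroup, ?_, ?_, ?_, ?_, ?_, ?_, ?_, ?_⟩
  · intro a ha b hb
    exact l.comm a ha b (h.comm (f a) (l.down a ha) (f b) (l.down b hb))
  · intro x hx
    exact h.le (l.down x hx)
  · intro n hn x hx
    apply l.mem
    · rw [map_mul, map_mul, map_inv]
      exact h.norm (f n) hn (f x) (l.down x hx)
    · obtain ⟨k, hk⟩ := l.pgroup ⟨x, hx⟩
      have hk' : x ^ p ^ k = 1 := congrArg Subtype.val hk
      refine ⟨k, ?_⟩
      rw [conj_pow, hk', mul_one, mul_inv_cancel]
  · intro n hn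
    rw [l.mem_tt]
    constructor
    · intro h5
      rw [← h.normU (f n) hn]
      intro u hu
      obtain ⟨u', hu', rfl⟩ := h2 u hu
      rw [← map_inv, ← map_mul, ← map_mul]
      exact h1 _ (h5 u' hu')
    · exact h4 n
  · intro u hu hc
    apply h3 u hu
    apply h.fix (f u) (h1 u hu)
    intro y hy
    obtain ⟨x, hx, rfl⟩ := l.up y hy
    rw [← map_mul, ← map_mul, hc x hx]
  · intro g
    obtain ⟨n, hn, hd⟩ := h.cover (f g)
    obtain ⟨n', rfl⟩ := l.surj n
    obtain ⟨z, hz, hd'⟩ := l.dc_up h2 hd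
    refine ⟨n' * z, ?_, hd'⟩
    change f (n' * z) ∈ N
    rw [map_mul, hkap z hz, mul_one]
    exact hn
  · intro n hn
    have h5 := h.gen (f n) hn
    have h6 : (Subgroup.closure ({m | IsSim P U N m} ∪ (TT P N : Set F))) ≤
        (Subgroup.closure ({m | IsSim Q Ut (N.comap f) m} ∪ (TT Q (N.comap f) : Set K))).map f := by
      rw [Subgroup.closure_le]
      intro m hm
      obtain ⟨m', rfl⟩ := l.surj m
      refine ⟨m', Subgroup.subset_closure ?_, rfl⟩
      rcases hm with hm | hm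
      · left
        exact l.sim h1 h2 hm
      · right
        exact l.mem_tt.2 hm
    obtain ⟨c, hc, e⟩ := h6 h5
    have h7 : c⁻¹ * n ∈ TT Q (N.comap f) := by
      rw [l.mem_tt, map_mul, map_inv, e, inv_mul_cancel]
      exact one_mem _
    have h8 : n = c * (c⁻¹ * n) := by group
    rw [h8]
    exact mul_mem hc (Subgroup.subset_closure (Or.inr h7))
  · intro x hx hk hc
    refine l.mem x (h.quad (f x) hx ?_ fun y hy => ?_) hk
    · obtain ⟨k, hk⟩ := hk
      exact ⟨k, by rw [← map_pow, hk, map_one]⟩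
    · obtain ⟨y', hy', rfl⟩ := l.up y hy
      rw [← map_commutatorElement, ← map_commutatorElement, hc y' hy', map_one]

end Pool.Agent.Helper68.LI
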