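import Pool.Agent.Helper68.LI.NPLift

/-!
# LI: transport of `Ch` along isomorphisms (MP_5ecade_al, project LI)
-/

set_option autoImplicit false

open scoped commutatorElement

namespace Pool.Agent.Helper68.LI

open Pool.Agent.Helper81.TD

variable {X Y : Type} [Group X] [Group Y] {p r : ℕ} {P U N : Subgroup X}

theorem SerV.lift' (f : Y →* X) (hf : Function.Surjective f)
    {T : Subgroup X} {m : ℕ} {V : ℕ → Subgroup X} (h : SerV T m V) :
    SerV (T.comap f) m (fun i => (V i).comap f) where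
  le i hi := Subgroup.comap_mono (h.le i hi)
  stab i hi t ht v hv := by
    change f (t * v * t⁻¹) ∈ V (i + 1)
    rw [map_mul, map_mul, map_inv]
    exact h.stab i hi _ ht _ hv
  cent i hi u hu v hv := by
    change f ⁅u, v⁆ ∈ V i
    rw [map_commutatorElement]
    exact h.cent i hi _ hu _ hv
  pair i hi j hj := (h.pair i hi j hj).lift f hf

theorem iso_mem (e : Y ≃* X) {H : Subgroup X} {x : Y} : x ∈ H.comap e.toMonoidHom ↔ e x ∈ H :=
  Iff.rfl

theorem iso_tt (e : Y ≃* X) {x : Y} :
    x ∈ TT (P.comap e.toMonoidHom) (N.comap e.toMonoidHom) ↔ e x ∈ TT P N := by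
  unfold TT
  rw [Subgroup.mem_inf, Subgroup.mem_inf, iso_mem, Subgroup.mem_centralizer_iff,
    Subgroup.mem_centralizer_iff]
  refine and_congr Iff.rfl ⟨fun h y hy => ?_, fun h y hy => e.injective ?_⟩
  · obtain ⟨z, rfl⟩ := e.surjective y
    rw [← map_mul, ← map_mul, h z hy]
  · rw [map_mul, map_mul]
    exact h _ hy

theorem iso_dc (e : Y ≃* X) {n x : Y} : DC (U.comap e.toMonoidHom) n x ↔ DC U (e n) (e x) := by
  constructor
  · rintro ⟨u, hu, u', hu', rfl⟩
    exact ⟨e u, hu, e u', hu', by rw [map_mul, map_mul]⟩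
  · rintro ⟨u, hu, u', hu', h⟩
    obtain ⟨v, rfl⟩ := e.surjective u
    obtain ⟨v', rfl⟩ := e.surjective u'
    exact ⟨v, hu, v', hu', e.injective (by rw [map_mul, map_mul, h])⟩

theorem iso_sim (e : Y ≃* X) {m : Y} :
    IsSim (P.comap e.toMonoidHom) (U.comap e.toMonoidHom) (N.comap e.toMonoidHom) m ↔
      IsSim P U N (e m) := by
  unfold IsSim
  rw [iso_mem, iso_tt, iso_tt, map_mul]
  refine and_congr Iff.rfl (and_congr Iff.rfl (and_congr Iff.rfl ⟨fun h n hn u hu => ?_,
    fun h n hn u hu => ?_⟩))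
  · obtain ⟨n, rfl⟩ := e.surjective n
    obtain ⟨u, rfl⟩ := e.surjective u
    obtain ⟨t, ht, h1⟩ := h n hn u hu
    refine ⟨e t, (iso_tt e).mp ht, ?_⟩
    rw [iso_dc, iso_dc] at h1
    simpa only [map_mul] using h1
  · obtain ⟨t, ht, h1⟩ := h (e n) hn (e u) hu
    obtain ⟨t, rfl⟩ := e.surjective t
    refine ⟨t, (iso_tt e).mpr ht, ?_⟩
    rw [iso_dc, iso_dc]
    simpa only [map_mul] using h1

theorem BN0.iso (h : BN0 p P U N) (e : Y ≃* X) :
    BN0 p (P.comap e.toMonoidHom) (U.comap e.toMonoidHom) (N.comap e.toMonoidHom) where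
  pgroup := by
    rintro ⟨x, hx⟩
    obtain ⟨k, hk⟩ := h.pgroup ⟨e x, hx⟩
    refine ⟨k, Subtype.ext (e.injective ?_)⟩
    have := congrArg Subtype.val hk
    change e (x ^ p ^ k) = e 1
    rw [map_pow, map_one]
    exact this
  comm a ha b hb := e.injective (by rw [map_mul, map_mul]; exact h.comm _ ha _ hb)
  le x hx := h.le hx
  norm n hn x hx := by
    rw [iso_mem, map_mul, map_mul, map_inv]
    exact h.norm _ hn _ hx
  normU n hn := by
    rw [iso_tt, ← h.normU (e n) hn]
    constructor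
    · intro h1 u hu
      obtain ⟨u, rfl⟩ := e.surjective u
      have h2 := h1 u hu
      rwa [iso_mem, map_mul, map_mul, map_inv] at h2
    · intro h1 u hu
      rw [iso_mem, map_mul, map_mul, map_inv]
      exact h1 _ hu
  fix u hu h1 := by
    apply e.injective
    rw [map_one]
    refine h.fix _ hu fun x hx => ?_
    obtain ⟨x, rfl⟩ := e.surjective x
    rw [← map_mul, ← map_mul, h1 x hx]
  cover g := by
    obtain ⟨n, hn, h1⟩ := h.cover (e g)
    obtain ⟨n, rfl⟩ := e.surjective n
    exact ⟨n, hn, (iso_dc e).2 h1⟩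
  gen n hn := by
    have h1 := h.gen _ hn
    have h2 : (Subgroup.closure ({m | IsSim P U N m} ∪ (TT P N : Set X))) ≤
        (Subgroup.closure ({m | IsSim (P.comap e.toMonoidHom) (U.comap e.toMonoidHom)
          (N.comap e.toMonoidHom) m} ∪ (TT (P.comap e.toMonoidHom)
          (N.comap e.toMonoidHom) : Set Y))).map e.toMonoidHom := by
      rw [Subgroup.closure_le]
      intro m hm
      obtain ⟨m, rfl⟩ := e.surjective m
      refine ⟨m, Subgroup.subset_closure ?_, rfl⟩
      rcases hm with hm | hm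
      · exact Or.inl ((iso_sim e).2 hm)
      · exact Or.inr ((iso_tt e).2 hm)
    obtain ⟨m, hm, h3⟩ := h2 h1
    rwa [← e.injective h3]
  quad x hx hk hc := by
    rw [iso_mem]
    refine h.quad _ hx ?_ fun y hy => ?_
    · obtain ⟨k, hk⟩ := hk
      exact ⟨k, by rw [← map_pow, hk, map_one]⟩
    · obtain ⟨y, rfl⟩ := e.surjective y
      rw [← map_commutatorElement, ← map_commutatorElement, hc y hy, map_one]

theorem Ch.iso (h : Ch p r P U N) (e : Y ≃* X) :
    Ch p r (P.comap e.toMonoidHom) (U.comap e.toMonoidHom) (N.comap e.toMonoidHom) := by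
  have hT : TT (P.comap e.toMonoidHom) (N.comap e.toMonoidHom) = (TT P N).comap e.toMonoidHom := by
    ext x
    rw [iso_tt, iso_mem]
  refine ⟨h.bn.iso e, ?_, ?_, ?_⟩
  · exact h.rgroup.comap_of_injective _ e.injective
  · have h1 : Nat.card (TT (P.comap e.toMonoidHom) (N.comap e.toMonoidHom)) =
        Nat.card (TT P N) := by
      rw [hT]
      exact Nat.card_congr ⟨fun x => ⟨e x.1, x.2⟩, fun y => ⟨e.symm y.1, by
        rw [iso_mem, MulEquiv.apply_symm_apply]
        exact y.2⟩, fun x => Subtype.ext (e.symm_apply_apply _),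
        fun y => Subtype.ext (e.apply_symm_apply _)⟩
    rw [h1]
    exact h.tor
  · obtain ⟨m, V, h0, hm, hS⟩ := h.ser
    refine ⟨m, fun i => (V i).comap e.toMonoidHom, ?_, ?_, ?_⟩
    · change (V 0).comap e.toMonoidHom = ⊥
      rw [h0]
      ext x
      rw [iso_mem, Subgroup.mem_bot, Subgroup.mem_bot, map_eq_one_iff e e.injective]
    · change (V m).comap e.toMonoidHom = _
      rw [hm]
    · rw [hT]
      exact hS.lift' e.toMonoidHom e.surjective

end Pool.Agent.Helper68.LI
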