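import Pool.Agent.Helper68.LI.Defs

/-!
# LI-05: existence of the lift of `P` (MP_5ecade_al, project LI)

Model: Helper68/TS/PEx.lean. `Q` with `IsPGroup p Q` and `Q.map f = P`: the private lemma `pex_lift` there (copy it). (E) an element `c` of the center with
`c ^ p ^ k = 1` is `1` (`dvd`; `pex_eq_one_of_ker` there). `mem`: `f x ∈ P`: there is `y ∈ Q` with `f y = f x`, `c = y⁻¹ x` is central (`ker`), `x = y c`, both
`x` and `y` have `p`-power order, so does `c = y⁻¹ x` (`c` commutes with `y`), so `c = 1`. `comm`: `c = g x g⁻¹ x⁻¹` is central (`f c = 1`), `g x g⁻¹ = c x`, and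
`(c x) ^ m = c ^ m x ^ m` gives `c ^ p ^ k = 1` for `x ^ p ^ k = 1`, so `c = 1`.
-/

set_option autoImplicit false

namespace Pool.Agent.Helper68.LI

open Pool.Agent.Helper81.TD

private theorem lex_eq_one {K : Type} [Group K] [Finite K] {p : ℕ} [Fact p.Prime]
    (hz : ¬ p ∣ Nat.card (Subgroup.center K)) {c : K} (hc : c ∈ Subgroup.center K) {N : ℕ}
    (hN : c ^ p ^ N = 1) : c = 1 := by
  have hp : p.Prime := Fact.out
  have h1 : orderOf c ∣ p ^ N := orderOf_dvd_of_pow_eq_one hN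
  have h2 : orderOf c ∣ Nat.card (Subgroup.center K) := by
    have h3 : orderOf (⟨c, hc⟩ : Subgroup.center K) ∣ Nat.card (Subgroup.center K) :=
      orderOf_dvd_natCard _
    rwa [Subgroup.orderOf_mk] at h3
  have h4 : Nat.Coprime (p ^ N) (Nat.card (Subgroup.center K)) :=
    Nat.Coprime.pow_left N ((Nat.Prime.coprime_iff_not_dvd hp).2 hz)
  have h5 : orderOf c = 1 := Nat.dvd_one.1 (h4 ▸ Nat.dvd_gcd h1 h2)
  exact orderOf_eq_one_iff.1 h5

private theorem lex_lift {p : ℕ} [Fact p.Prime] {G G' : Type} [Group G] [Group G'] [Finite G]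
    {φ : G →* G'} (hφ : Function.Surjective φ) {T : Subgroup G'} (hT : IsPGroup p T) :
    ∃ P : Subgroup G, IsPGroup p P ∧ P.map φ = T := by
  have hs : Function.Surjective (φ.subgroupComap T) :=
    MonoidHom.subgroupComap_surjective_of_surjective φ T hφ
  obtain ⟨Q⟩ : Nonempty (Sylow p (T.comap φ)) := Sylow.nonempty
  have h1 : ((Q.mapSurjective hs : Sylow p T) : Subgroup T) = ⊤ :=
    ((Q.mapSurjective hs).is_maximal' (hT.to_subgroup ⊤) le_top).symm
  rw [Sylow.coe_mapSurjective] at h1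
  refine ⟨(Q : Subgroup (T.comap φ)).map (T.comap φ).subtype, Q.2.map _, ?_⟩
  apply le_antisymm
  · exact Subgroup.map_le_iff_le_comap.mpr (Subgroup.map_subtype_le Q.1)
  · intro t ht
    have h2 : (⟨t, ht⟩ : T) ∈ (Q : Subgroup (T.comap φ)).map (φ.subgroupComap T) := by
      rw [h1]
      exact Subgroup.mem_top _
    obtain ⟨q, hq, hqt⟩ := Subgroup.mem_map.1 h2
    refine Subgroup.mem_map.2 ⟨(q : G), Subgroup.mem_map.2 ⟨q, hq, rfl⟩, ?_⟩
    exact congrArg Subtype.val hqt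

theorem exists_lift {K F : Type} [Group K] [Finite K] [Group F] {p : ℕ} [Fact p.Prime] (f : K →* F)
    (hf : Function.Surjective f) (hk : ∀ x, f x = 1 ↔ x ∈ Subgroup.center K)
    (hz : ¬ p ∣ Nat.card (Subgroup.center K)) (P : Subgroup F) (hP : IsPGroup p P) :
    ∃ Q : Subgroup K, Lift p f P Q := by
  obtain ⟨Q, hQp, hmap⟩ := lex_lift hf hP
  have hpow : ∀ x ∈ Q, ∃ N : ℕ, x ^ p ^ N = 1 := by
    intro x hx
    obtain ⟨N, hN⟩ := hQp ⟨x, hx⟩
    exact ⟨N, congrArg Subtype.val hN⟩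
  have hdown : ∀ x ∈ Q, f x ∈ P := by
    intro x hx
    rw [← hmap]
    exact Subgroup.mem_map_of_mem f hx
  have hup : ∀ y ∈ P, ∃ x ∈ Q, f x = y := by
    intro y hy
    rw [← hmap] at hy
    exact Subgroup.mem_map.1 hy
  refine ⟨Q, ⟨hf, hk, hz, hQp, hdown, hup, ?_, ?_⟩⟩
  · rintro x hx ⟨N, hN⟩
    obtain ⟨y, hy, hyx⟩ := hup _ hx
    obtain ⟨M, hM⟩ := hpow y hy
    have hc : y⁻¹ * x ∈ Subgroup.center K := by
      rw [← hk, map_mul, map_inv, hyx, inv_mul_cancel]
    have hcomm : Commute y (y⁻¹ * x) := Subgroup.mem_center_iff.1 hc y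
    have hxe : x = y * (y⁻¹ * x) := by group
    have h1 : x ^ p ^ (N + M) = 1 := by rw [pow_add, pow_mul, hN, one_pow]
    have h2 : y ^ p ^ (N + M) = 1 := by rw [pow_add, mul_comm (p ^ N), pow_mul, hM, one_pow]
    have h3 : (y⁻¹ * x) ^ p ^ (N + M) = 1 := by
      rw [hxe, hcomm.mul_pow, h2, one_mul] at h1
      exact h1
    have h4 := lex_eq_one hz hc h3
    have h5 : x = y := (inv_mul_eq_one.1 h4).symm
    rw [h5]
    exact hy
  · intro x hx g hg
    obtain ⟨N, hN⟩ := hpow x hx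
    have hc : g * x * g⁻¹ * x⁻¹ ∈ Subgroup.center K := by
      rw [← hk, map_mul, map_mul, map_mul, map_inv, map_inv, ← hg, mul_inv_cancel_right,
        mul_inv_cancel]
    have hcomm : Commute (g * x * g⁻¹ * x⁻¹) x := (Subgroup.mem_center_iff.1 hc x).symm
    have h1 : (g * x * g⁻¹) ^ p ^ N = 1 := by
      rw [conj_pow, hN, mul_one, mul_inv_cancel]
    have h3 : (g * x * g⁻¹ * x⁻¹) ^ p ^ N = 1 := by
      have h4 : g * x * g⁻¹ = (g * x * g⁻¹ * x⁻¹) * x := by group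
      rw [h4, hcomm.mul_pow, hN, mul_one] at h1
      exact h1
    have h4 := lex_eq_one hz hc h3
    have h5 : g * x * g⁻¹ = x := mul_inv_eq_one.1 h4
    exact (mul_inv_eq_iff_eq_mul.1 h5).symm

end Pool.Agent.Helper68.LI
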