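import Pool.Agent.Helper68.LI.Defs

/-!
# LI-07: pairings of preimages (MP_5ecade_al, project LI)

Let `β : K → K → A` satisfy the hypotheses for the preimages. For `x` with `f x = f x'`, `x, x' ∈ X.comap f`, `y ∈ Y.comap f`: `x = x' c` with `f c = 1`, so `c` lies in
`X₀.comap f` and `β x y = β x' y β c y = β x' y`; the same in the second variable. With a section `s` of `f` (`Function.surjInv hf`) let
`β' a b = β (s a) (s b)`; then `β x y = β' (f x) (f y)`, and `β'` satisfies the hypotheses of `h` (for `t ∈ T` use `s t ∈ T.comap f`).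
-/

set_option autoImplicit false

open scoped commutatorElement

namespace Pool.Agent.Helper68.LI

open Pool.Agent.Helper81.TD

theorem NoPair.lift {K F : Type} [Group K] [Group F] (f : K →* F) (hf : Function.Surjective f)
    {T X₀ X Y₀ Y : Subgroup F} {a : Prop} (h : NoPair T X₀ X Y₀ Y a) :
    NoPair (T.comap f) (X₀.comap f) (X.comap f) (Y₀.comap f) (Y.comap f) a := by
  intro A _ β hb1 hb2 h0 h0' ht ha x hx y hy
  have k1 : ∀ x x' y, x' ∈ X.comap f → y ∈ Y.comap f → f x = f x' → β x y = β x' y := by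
    intro x x' y hx' hy hxx
    have hc : f (x'⁻¹ * x) = 1 := by rw [map_mul, map_inv, hxx, inv_mul_cancel]
    have hcX : x'⁻¹ * x ∈ X.comap f := by
      rw [Subgroup.mem_comap, hc]; exact X.one_mem
    have hcX₀ : x'⁻¹ * x ∈ X₀.comap f := by
      rw [Subgroup.mem_comap, hc]; exact X₀.one_mem
    have h1 := hb1 x' hx' _ hcX y hy
    rw [mul_inv_cancel_left, h0 _ hcX₀ y hy, mul_one] at h1
    exact h1
  have k2 : ∀ x y y', x ∈ X.comap f → y' ∈ Y.comap f → f y = f y' → β x y = β x y' := by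
    intro x y y' hx hy' hyy
    have hc : f (y'⁻¹ * y) = 1 := by rw [map_mul, map_inv, hyy, inv_mul_cancel]
    have hcY : y'⁻¹ * y ∈ Y.comap f := by
      rw [Subgroup.mem_comap, hc]; exact Y.one_mem
    have hcY₀ : y'⁻¹ * y ∈ Y₀.comap f := by
      rw [Subgroup.mem_comap, hc]; exact Y₀.one_mem
    have h1 := hb2 x hx y' hy' _ hcY
    rw [mul_inv_cancel_left, h0' x hx _ hcY₀, mul_one] at h1
    exact h1
  set s : F → K := Function.surjInv hf with hs
  have fs : ∀ a, f (s a) = a := Function.surjInv_eq hf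
  have sX : ∀ a ∈ X, s a ∈ X.comap f := fun a ha' => by rw [Subgroup.mem_comap, fs]; exact ha'
  have sY : ∀ a ∈ Y, s a ∈ Y.comap f := fun a ha' => by rw [Subgroup.mem_comap, fs]; exact ha'
  -- conjugates of pairs in `X × Y` with the same image
  have k3 : ∀ t ∈ T, ∀ x ∈ X, ∀ y ∈ Y, t * x * t⁻¹ ∈ X → t * y * t⁻¹ ∈ Y →
      β (s (t * x * t⁻¹)) (s (t * y * t⁻¹)) = β (s x) (s y) := by
    intro t ht' a ha' b hb ha2 hb2'
    have hst : s t ∈ T.comap f := by rw [Subgroup.mem_comap, fs]; exact ht'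
    have e1 : f (s (t * a * t⁻¹)) = f (s t * s a * (s t)⁻¹) := by
      simp only [map_mul, map_inv, fs]
    have e2 : f (s (t * b * t⁻¹)) = f (s t * s b * (s t)⁻¹) := by
      simp only [map_mul, map_inv, fs]
    have m1 : s t * s a * (s t)⁻¹ ∈ X.comap f := by
      rw [Subgroup.mem_comap, ← e1, fs]; exact ha2
    have m2 : s t * s b * (s t)⁻¹ ∈ Y.comap f := by
      rw [Subgroup.mem_comap, ← e2, fs]; exact hb2'
    rw [← ht (s t) hst (s a) (sX a ha') (s b) (sY b hb),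
      k1 _ _ _ m1 (sY _ hb2') e1, k2 _ _ _ m1 m2 e2]
  classical
  let Q : F → F → Prop := fun a b => ∃ t x y, t ∈ T ∧ x ∈ X ∧ y ∈ Y ∧ a = t * x * t⁻¹ ∧
    b = t * y * t⁻¹
  let β' : F → F → A := fun a b =>
    if hQ : Q a b then β (s hQ.choose_spec.choose) (s hQ.choose_spec.choose_spec.choose) else 1
  have W : ∀ t ∈ T, ∀ x ∈ X, ∀ y ∈ Y, β' (t * x * t⁻¹) (t * y * t⁻¹) = β (s x) (s y) := by
    intro t ht' a ha' b hb
    have hQ : Q (t * a * t⁻¹) (t * b * t⁻¹) := ⟨t, a, b, ht', ha', hb, rfl, rfl⟩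
    have e : β' (t * a * t⁻¹) (t * b * t⁻¹) =
        β (s hQ.choose_spec.choose) (s hQ.choose_spec.choose_spec.choose) := dif_pos hQ
    rw [e]
    obtain ⟨ht2, hx2, hy2, ea, eb⟩ := hQ.choose_spec.choose_spec.choose_spec
    set t2 := hQ.choose with ht2def
    set x2 := hQ.choose_spec.choose with hx2def
    set y2 := hQ.choose_spec.choose_spec.choose with hy2def
    have hx3 : x2 = (t2⁻¹ * t) * a * (t2⁻¹ * t)⁻¹ := by
      have : t2 * x2 * t2⁻¹ = t * a * t⁻¹ := ea.symm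
      calc x2 = t2⁻¹ * (t2 * x2 * t2⁻¹) * t2 := by group
        _ = t2⁻¹ * (t * a * t⁻¹) * t2 := by rw [this]
        _ = _ := by group
    have hy3 : y2 = (t2⁻¹ * t) * b * (t2⁻¹ * t)⁻¹ := by
      have : t2 * y2 * t2⁻¹ = t * b * t⁻¹ := eb.symm
      calc y2 = t2⁻¹ * (t2 * y2 * t2⁻¹) * t2 := by group
        _ = t2⁻¹ * (t * b * t⁻¹) * t2 := by rw [this]
        _ = _ := by group
    have h4 := k3 (t2⁻¹ * t) (T.mul_mem (T.inv_mem ht2) ht') a ha' b hb (hx3 ▸ hx2) (hy3 ▸ hy2)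
    rw [← hx3, ← hy3] at h4
    exact h4
  have W1 : ∀ x ∈ X, ∀ y ∈ Y, β' x y = β (s x) (s y) := by
    intro a ha' b hb
    have := W 1 T.one_mem a ha' b hb
    simpa using this
  have hval : ∀ a b, β' a b = 1 ∨ ∃ t x y, t ∈ T ∧ x ∈ X ∧ y ∈ Y ∧ a = t * x * t⁻¹ ∧
      b = t * y * t⁻¹ ∧ β' a b = β (s x) (s y) := by
    intro a b
    by_cases hQ : Q a b
    · right
      obtain ⟨t, x1, y1, ht1, hx1, hy1, ea, eb⟩ := hQ
      refine ⟨t, x1, y1, ht1, hx1, hy1, ea, eb, ?_⟩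
      rw [ea, eb]
      exact W t ht1 x1 hx1 y1 hy1
    · left
      exact dif_neg hQ
  have hmain := h A β' ?_ ?_ ?_ ?_ ?_ ?_ (f x) hx (f y) hy
  · have e1 : β x y = β (s (f x)) (s (f y)) := by
      rw [k1 x (s (f x)) y (sX _ hx) hy (fs _).symm, k2 (s (f x)) y (s (f y)) (sX _ hx) (sY _ hy)
        (fs _).symm]
    rw [e1, ← W1 _ hx _ hy]
    exact hmain
  · intro a ha' a' ha'' b hb
    rw [W1 _ (X.mul_mem ha' ha'') _ hb, W1 _ ha' _ hb, W1 _ ha'' _ hb,
      ← hb1 _ (sX a ha') _ (sX a' ha'') _ (sY b hb)]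
    exact k1 _ _ _ (Subgroup.mul_mem _ (sX a ha') (sX a' ha'')) (sY b hb) (by
      rw [map_mul, fs, fs, fs])
  · intro a ha' b hb b' hb'
    rw [W1 _ ha' _ (Y.mul_mem hb hb'), W1 _ ha' _ hb, W1 _ ha' _ hb',
      ← hb2 _ (sX a ha') _ (sY b hb) _ (sY b' hb')]
    exact k2 _ _ _ (sX a ha') (Subgroup.mul_mem _ (sY b hb) (sY b' hb')) (by
      rw [map_mul, fs, fs, fs])
  · intro a ha' b hb
    rcases hval a b with h1 | ⟨t, x1, y1, ht1, hx1, hy1, ea, eb, h1⟩
    · exact h1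
    · rw [h1, ← ht (s t) (by rw [Subgroup.mem_comap, fs]; exact ht1) (s x1) (sX _ hx1) (s y1)
        (sY _ hy1)]
      apply h0
      · rw [Subgroup.mem_comap, map_mul, map_mul, map_inv, fs, fs, ← ea]; exact ha'
      · rw [Subgroup.mem_comap, map_mul, map_mul, map_inv, fs, fs, ← eb]; exact hb
  · intro a ha' b hb
    rcases hval a b with h1 | ⟨t, x1, y1, ht1, hx1, hy1, ea, eb, h1⟩
    · exact h1
    · rw [h1, ← ht (s t) (by rw [Subgroup.mem_comap, fs]; exact ht1) (s x1) (sX _ hx1) (s y1)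
        (sY _ hy1)]
      apply h0'
      · rw [Subgroup.mem_comap, map_mul, map_mul, map_inv, fs, fs, ← ea]; exact ha'
      · rw [Subgroup.mem_comap, map_mul, map_mul, map_inv, fs, fs, ← eb]; exact hb
  · intro t ht' a ha' b hb
    rw [W t ht' a ha' b hb, W1 a ha' b hb]
  · intro haa a ha'
    rcases hval a a with h1 | ⟨t, x1, y1, ht1, hx1, hy1, ea, eb, h1⟩
    · exact h1
    · have h2 : x1 = y1 := by
        have : t * x1 * t⁻¹ = t * y1 * t⁻¹ := by rw [← ea, ← eb]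
        exact mul_left_cancel (mul_right_cancel this)
      rw [h1, ← h2]
      exact ha haa _ (sX _ hx1)

end Pool.Agent.Helper68.LI
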