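import Pool.Agent.Helper68.LI.Defs
import Pool.Agent.Helper81.TD.Basic

/-!
# LI-12: the lift of `U` (MP_5ecade_al, project LI)

`Y = {v ∈ V | ζ v = 1}` is a subgroup. `⁅V, Q⁆ ≤ Y`: for `v ∈ V`, `x ∈ Q ≤ T`: `⁅v, x⁆ = v · (x v⁻¹ x⁻¹)` and `ζ (x v⁻¹ x⁻¹) = ζ v⁻¹` (`h.conjT`), so `ζ ⁅v, x⁆ = ζ (v v⁻¹) = ζ 1 = 1`
(`h.mul`, `h.id`). `Y ≤ ⁅V, Q⁆`: let `u ∈ Y`, `D = ⁅Y, Q⁆` (or the closure of the `⁅v, x⁆`, `v ∈ Y`, `x ∈ Q`). `D ≤ Y` (`⁅v, x⁆ ∈ Y` as `Q` normalizes `Y`), `Q` normalizes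
`D` (`x ⁅v, y⁆ x⁻¹ = ⁅x v x⁻¹, x y x⁻¹⁆`). The coset `S = {s | u⁻¹ s ∈ D}` is stable under conjugation with `x ∈ Q`: `u⁻¹ x s x⁻¹ = (u⁻¹ x u x⁻¹) · x (u⁻¹ s) x⁻¹` and `u⁻¹ x u x⁻¹ = ⁅u⁻¹, x⁆`.
`|S| = |D| ≡ 1 mod p` by `modEq_fix` (Helper81/TD/Basic.lean) since the only fixed point of `Q` in `D ≤ Y` is `1` (`hfix`; model `BN.sub_mod`), so there is a fixed point
`s ∈ S` (`exists_fix`, `not_dvd_of_modEq_one`), `s ∈ Y`, so `s = 1` and `u⁻¹ ∈ D`.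
-/

set_option autoImplicit false

open scoped commutatorElement

namespace Pool.Agent.Helper68.LI

open Pool.Agent.Helper81.TD

theorem Ret.mem_comm {K : Type} [Group K] [Finite K] {p : ℕ} [Fact p.Prime] {V T : Subgroup K}
    {ζ : K → K} (h : Ret V T V ζ) (hT : ∀ t ∈ T, ∀ v ∈ V, t * v * t⁻¹ ∈ V) (Q : Subgroup K)
    (hQ : IsPGroup p Q) (hQT : Q ≤ T)
    (hfix : ∀ v ∈ V, ζ v = 1 → (∀ x ∈ Q, x * v = v * x) → v = 1) (v : K) :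
    v ∈ ⁅V, Q⁆ ↔ v ∈ V ∧ ζ v = 1 := by
  have hone : ζ 1 = 1 := h.id 1 (one_mem _)
  -- the subgroup `Y`
  let Y : Subgroup K :=
    { carrier := {v | v ∈ V ∧ ζ v = 1}
      one_mem' := ⟨V.one_mem, hone⟩
      mul_mem' := by
        rintro a b ⟨ha, ha1⟩ ⟨hb, hb1⟩
        exact ⟨V.mul_mem ha hb, by rw [h.mul a ha b hb, ha1, hb1, one_mul]⟩
      inv_mem' := by
        rintro a ⟨ha, ha1⟩
        refine ⟨V.inv_mem ha, ?_⟩
        have h1 := h.mul a ha a⁻¹ (V.inv_mem ha)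
        rw [mul_inv_cancel, hone, ha1, one_mul] at h1
        exact h1.symm }
  have hY : ∀ w, w ∈ Y ↔ w ∈ V ∧ ζ w = 1 := fun w => Iff.rfl
  have hcV : ∀ w ∈ V, ∀ x ∈ Q, ⁅w, x⁆ ∈ Y := by
    intro w hw x hx
    have hw' : x * w⁻¹ * x⁻¹ ∈ V := hT x (hQT hx) _ (V.inv_mem hw)
    have e : ⁅w, x⁆ = w * (x * w⁻¹ * x⁻¹) := by
      rw [commutatorElement_def]
      group
    rw [e, hY]
    refine ⟨V.mul_mem hw hw', ?_⟩
    rw [h.mul w hw _ hw', h.conjT x (hQT hx) _ (V.inv_mem hw), ← h.mul w hw _ (V.inv_mem hw),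
      mul_inv_cancel, hone]
  have hQY : ∀ x ∈ Q, ∀ w ∈ Y, x * w * x⁻¹ ∈ Y := by
    intro x hx w hw
    exact ⟨hT x (hQT hx) w hw.1, by rw [h.conjT x (hQT hx) w hw.1]; exact hw.2⟩
  constructor
  · intro hv
    have h1 : (⁅V, Q⁆ : Subgroup K) ≤ Y := by
      rw [Subgroup.commutator_le]
      exact hcV
    exact h1 hv
  · rintro ⟨hv, hv1⟩
    have hvY : v ∈ Y := ⟨hv, hv1⟩
    have hDY : (⁅Y, Q⁆ : Subgroup K) ≤ Y := by
      rw [Subgroup.commutator_le]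
      exact fun w hw x hx => hcV w hw.1 x hx
    have hDV : (⁅Y, Q⁆ : Subgroup K) ≤ ⁅V, Q⁆ := Subgroup.commutator_mono (fun w hw => hw.1) le_rfl
    have hQD : ∀ x ∈ Q, ∀ w ∈ (⁅Y, Q⁆ : Subgroup K), x * w * x⁻¹ ∈ (⁅Y, Q⁆ : Subgroup K) := by
      intro x hx w hw
      have h2 : (⁅Y, Q⁆ : Subgroup K) ≤ (⁅Y, Q⁆ : Subgroup K).comap (MulAut.conj x).toMonoidHom := by
        rw [Subgroup.commutator_le]
        intro a ha b hb
        change MulAut.conj x ⁅a, b⁆ ∈ (⁅Y, Q⁆ : Subgroup K)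
        rw [map_commutatorElement]
        exact Subgroup.commutator_mem_commutator (hQY x hx a ha) (by
          rw [MulAut.conj_apply]
          exact Q.mul_mem (Q.mul_mem hx hb) (Q.inv_mem hx))
      exact h2 hw
    let S : Set K := {s | v⁻¹ * s ∈ (⁅Y, Q⁆ : Subgroup K)}
    have hS : ∀ x ∈ Q, ∀ s ∈ S, x * s * x⁻¹ ∈ S := by
      intro x hx s hs
      change v⁻¹ * (x * s * x⁻¹) ∈ (⁅Y, Q⁆ : Subgroup K)
      have e : v⁻¹ * (x * s * x⁻¹) = ⁅v⁻¹, x⁆ * (x * (v⁻¹ * s) * x⁻¹) := by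
        rw [commutatorElement_def]
        group
      rw [e]
      exact mul_mem (Subgroup.commutator_mem_commutator (inv_mem hvY) hx) (hQD x hx _ hs)
    have hScard : Nat.card S = Nat.card (⁅Y, Q⁆ : Subgroup K) := by
      refine Nat.card_congr ⟨fun s => ⟨v⁻¹ * s.1, s.2⟩, fun w => ⟨v * w.1, ?_⟩, fun s => ?_,
        fun w => ?_⟩
      · change v⁻¹ * (v * w.1) ∈ (⁅Y, Q⁆ : Subgroup K)
        rw [inv_mul_cancel_left]
        exact w.2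
      · exact Subtype.ext (mul_inv_cancel_left _ _)
      · exact Subtype.ext (inv_mul_cancel_left _ _)
    have hDcard : Nat.card (⁅Y, Q⁆ : Subgroup K) ≡ 1 [MOD p] := by
      have h2 := modEq_fix hQ ((⁅Y, Q⁆ : Subgroup K) : Set K) hQD
      have e : Nat.card {s : K // s ∈ ((⁅Y, Q⁆ : Subgroup K) : Set K) ∧
          ∀ x ∈ Q, x * s = s * x} = 1 := by
        rw [Nat.card_eq_one_iff_unique]
        refine ⟨⟨fun a b => ?_⟩, ⟨⟨1, one_mem _, fun x _ => by simp⟩⟩⟩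
        apply Subtype.ext
        rw [hfix a.1 (hDY a.2.1).1 (hDY a.2.1).2 a.2.2, hfix b.1 (hDY b.2.1).1 (hDY b.2.1).2 b.2.2]
      rw [e] at h2
      exact h2
    obtain ⟨s, hs, hsc⟩ := exists_fix hQ S hS (by
      rw [hScard]
      exact not_dvd_of_modEq_one hDcard)
    have hsY : s ∈ Y := by
      have h3 := Y.mul_mem hvY (hDY hs)
      rwa [mul_inv_cancel_left] at h3
    have hs1 := hfix s hsY.1 hsY.2 hsc
    subst hs1
    have h4 : v⁻¹ * 1 ∈ (⁅Y, Q⁆ : Subgroup K) := hs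
    rw [mul_one] at h4
    have h5 := inv_mem h4
    rw [inv_inv] at h5
    exact hDV h5

end Pool.Agent.Helper68.LI
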