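import Pool.Agent.Helper68.LI.Aut
import Pool.Agent.Helper68.LI.LiftEx
import Pool.Agent.Helper68.LI.FixMod
import Pool.Agent.Helper68.LI.NPLift
import Pool.Agent.Helper68.LI.ExRet
import Pool.Agent.Helper68.LI.UU
import Pool.Agent.Helper68.LI.Gen

/-!
# Project LI: the lifting theorem (MP_5ecade_al)

If `K / Z(K) ≅ F`, `p` does not divide `|Z(K)|` and the finite group `F` has a split BN-pair at `p` of
characteristic `r` then `K` satisfies `BN p`.
-/

set_option autoImplicit false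

open scoped commutatorElement

namespace Pool.Agent.Helper68.LI

open Pool.Agent.Helper81.TD

theorem SerV.lift {K F : Type} [Group K] [Group F] (f : K →* F) (hf : Function.Surjective f)
    {T : Subgroup F} {m : ℕ} {V : ℕ → Subgroup F} (h : SerV T m V) :
    SerV (T.comap f) m (fun i => (V i).comap f) where
  le i hi := Subgroup.comap_mono (h.le i hi)
  stab i hi t ht v hv := by
    change f (t * v * t⁻¹) ∈ V (i + 1)
    rw [map_mul, map_mul, map_inv]
    exact h.stab i hi _ ht _ hv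
  cent i hi u hu v hv := by
    change f ⁅u, v⁆ ∈ V i
    rw [map_commutatorElement]
    exact h.cent i hi _ hu _ hv
  pair i hi j hj := (h.pair i hi j hj).lift f hf

/-- the series is increasing and stable -/
theorem SerV.mono {F : Type} [Group F] {T : Subgroup F} {m : ℕ} {V : ℕ → Subgroup F}
    (h : SerV T m V) : ∀ i ≤ m, V i ≤ V m := by
  intro i hi
  obtain ⟨d, rfl⟩ := Nat.exists_eq_add_of_le hi
  clear hi
  induction d with
  | zero => exact le_rfl
  | succ d ih =>
    have h' : SerV T (i + d) V → V i ≤ V (i + d) := fun h => ih h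
    have h1 : ∀ j, j ≤ d → V i ≤ V (i + j) := by
      intro j
      induction j with
      | zero => exact fun _ => le_rfl
      | succ j ihj => exact fun hj => (ihj (by omega)).trans (h.le (i + j) (by omega))
    exact (h1 d le_rfl).trans (h.le (i + d) (by omega))

/-- the lift of a split BN-pair without the condition on automorphisms, and the form of the lift of
`U` -/
theorem exists_bn0 {K F : Type} [Group K] [Finite K] [Group F] [Finite F] {p r : ℕ} [Fact p.Prime]
    {P U N : Subgroup F} (h : Ch p r P U N) (f : K →* F) (hf : Function.Surjective f)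
    (hk : ∀ x, f x = 1 ↔ x ∈ Subgroup.center K) (hz : ¬ p ∣ Nat.card (Subgroup.center K)) :
    ∃ Q : Subgroup K, Lift p f P Q ∧ BN0 p Q ⁅U.comap f, Q⁆ (N.comap f) := by
  obtain ⟨Q, hQ⟩ := exists_lift f hf hk hz P h.bn.pgroup
  refine ⟨Q, hQ, ?_⟩
  obtain ⟨m, V, h0, hm, hS⟩ := h.ser
  have hS' := hS.lift f hf
  have h0' : (V 0).comap f = Subgroup.center K := by
    ext x
    rw [h0, Subgroup.mem_comap, Subgroup.mem_bot]
    exact hk x
  have hQT : Q ≤ (TT P N).comap f := fun x hx => h.bn.mem_tt (hQ.down x hx)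
  have hQc : ∀ x ∈ Q, ∀ t ∈ (TT P N).comap f, x * t = t * x := fun x hx t ht =>
    hQ.comm x hx t (BN0.tt_comm (hQ.down x hx) ht)
  have hstab : ∀ i ≤ m, ∀ t ∈ TT P N, ∀ v ∈ V i, t * v * t⁻¹ ∈ V i := by
    intro i hi t ht v hv
    rcases i with _ | i
    · rw [h0, Subgroup.mem_bot] at hv ⊢
      rw [hv]
      simp
    · exact hS.stab i (by omega) t ht v hv
  obtain ⟨ζ, hζ⟩ := exists_ret hS' h0' hz Q hQ.pgroup hQT hQc (by
    intro i hi v hv hx
    change f v ∈ V i
    refine h.bn.fix_mod (V i) ?_ (fun x hx w hw => hstab i hi.le x (h.bn.mem_tt hx) w hw)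
      (fun u hu w hw => ?_) ?_ ?_
    · rw [← hm]
      exact hS.mono i hi.le
    · rw [← hm] at hu
      rcases i with _ | i
      · rw [h0, Subgroup.mem_bot] at hw ⊢
        rw [hw, commutatorElement_one_right]
      · exact hS.le i (by omega) (hS.cent i (by omega) u hu w hw)
    · rw [← hm]
      exact hS.mono (i + 1) hi hv
    · intro x hx'
      obtain ⟨y, hy, rfl⟩ := hQ.up x hx'
      have h1 := hx y hy
      change f ⁅y, v⁆ ∈ V i at h1
      rwa [map_commutatorElement] at h1)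
  have hm' : (V m).comap f = U.comap f := by rw [hm]
  rw [hm'] at hζ
  have hker : ∀ v ∈ U.comap f, ζ v = 1 → f v = 1 → v = 1 := by
    intro v _ h1 h2
    have := hζ.id v ((hk v).1 h2)
    rw [← this, h1]
  have hUT : ∀ t ∈ (TT P N).comap f, ∀ v ∈ U.comap f, t * v * t⁻¹ ∈ U.comap f := by
    intro t ht v hv
    change f (t * v * t⁻¹) ∈ U
    rw [map_mul, map_mul, map_inv]
    exact h.bn.normT ht hv
  have hmem : ∀ v, v ∈ ⁅U.comap f, Q⁆ ↔ v ∈ U.comap f ∧ ζ v = 1 := by
    refine hζ.mem_comm hUT Q hQ.pgroup hQT fun v hv h1 h2 => hker v hv h1 ?_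
    refine h.bn.fix (f v) hv fun x hx => ?_
    obtain ⟨y, hy, rfl⟩ := hQ.up x hx
    rw [← map_mul, ← map_mul, h2 y hy]
  refine bn0_lift h.bn hQ (fun u hu => ((hmem u).1 hu).1) (fun u hu => ?_)
    (fun u hu h1 => hker u ((hmem u).1 hu).1 ((hmem u).1 hu).2 h1) (fun t ht u hu => ?_)
  · obtain ⟨v, rfl⟩ := hf u
    have hzv := hζ.mem v hu
    have hzi : (ζ v)⁻¹ ∈ Subgroup.center K := inv_mem hzv
    have hf1 : f (ζ v)⁻¹ = 1 := (hk _).2 hzi
    refine ⟨v * (ζ v)⁻¹, (hmem _).2 ⟨?_, ?_⟩, ?_⟩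
    · change f (v * (ζ v)⁻¹) ∈ U
      rw [map_mul, hf1, mul_one]
      exact hu
    · rw [hζ.mul v hu _ (by
        change f (ζ v)⁻¹ ∈ U
        rw [hf1]
        exact one_mem _), hζ.id _ hzi, mul_inv_cancel]
    · rw [map_mul, hf1, mul_one]
  · rw [hmem] at hu ⊢
    exact ⟨hUT t ht u hu.1, by rw [hζ.conjT t ht u hu.1]; exact hu.2⟩

/-- the automorphism of `F` induced by an automorphism of `K` -/
theorem induced {K F : Type} [Group K] [Group F] (f : K →* F) (hf : Function.Surjective f)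
    (hk : ∀ x, f x = 1 ↔ x ∈ Subgroup.center K) (α : MulAut K) :
    ∃ β : MulAut F, ∀ x, β (f x) = f (α x) := by
  have h1 : ∀ x, f x = 1 ↔ f (α x) = 1 := by
    intro x
    rw [hk, hk, Subgroup.mem_center_iff, Subgroup.mem_center_iff]
    constructor
    · intro h y
      obtain ⟨z, rfl⟩ := α.surjective y
      rw [← map_mul, ← map_mul, h z]
    · intro h y
      apply α.injective
      rw [map_mul, map_mul, h]
  have h2 : ∀ x y, f x = f y ↔ f (α x) = f (α y) := by
    intro x y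
    have h3 := h1 (x * y⁻¹)
    rwa [map_mul, map_inv, map_mul, map_mul, map_inv, map_inv, mul_inv_eq_one, mul_inv_eq_one] at h3
  have hs : ∀ a, f (Function.surjInv hf a) = a := Function.surjInv_eq hf
  let g : F →* F := MonoidHom.mk' (fun a => f (α (Function.surjInv hf a))) (fun a b => by
    rw [← map_mul, ← map_mul, ← h2, map_mul, hs, hs, hs])
  have hg : ∀ x, g (f x) = f (α x) := by
    intro x
    change f (α (Function.surjInv hf (f x))) = f (α x)
    rw [← h2]
    exact hs _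
  have hb : Function.Bijective g := by
    refine ⟨fun a b hab => ?_, fun b => ?_⟩
    · change f (α (Function.surjInv hf a)) = f (α (Function.surjInv hf b)) at hab
      rw [← h2, hs, hs] at hab
      exact hab
    · obtain ⟨y, rfl⟩ := hf b
      refine ⟨f (α⁻¹ y), ?_⟩
      rw [hg, MulAut.apply_inv_self]
  exact ⟨MulEquiv.ofBijective g hb, hg⟩

/-- the lifting theorem -/
theorem bn_of_ch {K F : Type} [Group K] [Finite K] [Group F] [Finite F] {p r : ℕ} [Fact p.Prime]
    [Fact r.Prime] {P U N : Subgroup F} (h : Ch p r P U N)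
    (hz : ¬ p ∣ Nat.card (Subgroup.center K)) (e : (K ⧸ Subgroup.center K) ≃* F) :
    ∃ P U N : Subgroup K, BN p P U N := by
  set f : K →* F := e.toMonoidHom.comp (QuotientGroup.mk' (Subgroup.center K)) with hfdef
  have hf : Function.Surjective f := e.surjective.comp (QuotientGroup.mk'_surjective _)
  have hk : ∀ x, f x = 1 ↔ x ∈ Subgroup.center K := by
    intro x
    have h1 : f x = e (QuotientGroup.mk' (Subgroup.center K) x) := rfl
    rw [h1, e.map_eq_one_iff]
    exact QuotientGroup.eq_one_iff x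
  obtain ⟨Q, l, hB⟩ := exists_bn0 h f hf hk hz
  refine ⟨Q, ⁅U.comap f, Q⁆, N.comap f, hB.pgroup, hB.comm, hB.le, hB.norm, hB.normU, hB.fix,
    hB.cover, hB.gen, hB.quad, fun α hα => ?_⟩
  obtain ⟨β, hβ⟩ := induced f hf hk α
  have hβP : ∀ x, β x ∈ P ↔ x ∈ P := by
    refine stab_of_le fun x hx => ?_
    obtain ⟨y, hy, rfl⟩ := l.up x hx
    rw [hβ]
    exact l.down _ ((hα y).2 hy)
  obtain ⟨n, hn, h1⟩ := h.aut β hβP
  obtain ⟨n, rfl⟩ := hf n
  refine ⟨n, hn, ?_⟩
  -- the automorphism `x ↦ n⁻¹ (α x) n` stabilizes `U.comap f` and `Q`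
  have hγ : ∀ x, (MulAut.conj n⁻¹ * α) x = n⁻¹ * α x * n := by
    intro x
    rw [MulAut.mul_apply, MulAut.conj_apply, inv_inv]
  have hγU : ∀ x, (MulAut.conj n⁻¹ * α) x ∈ U.comap f ↔ x ∈ U.comap f := by
    intro x
    rw [hγ, Subgroup.mem_comap, Subgroup.mem_comap, ← h1 (f x), map_mul, map_mul, map_inv, hβ]
  have hγQ : ∀ x, (MulAut.conj n⁻¹ * α) x ∈ Q ↔ x ∈ Q := by
    refine stab_of_le fun x hx => ?_
    rw [hγ]
    have h2 := hB.norm n⁻¹ (inv_mem hn) _ ((hα x).2 hx)
    rwa [inv_inv] at h2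
  have hmap : ∀ H : Subgroup K, (∀ x, (MulAut.conj n⁻¹ * α) x ∈ H ↔ x ∈ H) →
      H.map (MulAut.conj n⁻¹ * α).toMonoidHom = H := by
    intro H hH
    ext y
    rw [Subgroup.mem_map]
    constructor
    · rintro ⟨x, hx, rfl⟩
      exact (hH x).2 hx
    · intro hy
      obtain ⟨x, rfl⟩ := (MulAut.conj n⁻¹ * α).surjective y
      exact ⟨x, (hH x).1 hy, rfl⟩
  have h5 : (⁅U.comap f, Q⁆ : Subgroup K).map (MulAut.conj n⁻¹ * α).toMonoidHom =
      ⁅U.comap f, Q⁆ := by
    rw [Subgroup.map_commutator, hmap _ hγU, hmap _ hγQ]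
  intro x
  rw [← hγ]
  constructor
  · intro h6
    rw [← h5] at h6
    obtain ⟨y, hy, hyx⟩ := h6
    have h7 : y = x := (MulAut.conj n⁻¹ * α).injective hyx
    rwa [← h7]
  · intro h6
    have h7 : (MulAut.conj n⁻¹ * α).toMonoidHom x ∈
        (⁅U.comap f, Q⁆ : Subgroup K).map (MulAut.conj n⁻¹ * α).toMonoidHom :=
      Subgroup.mem_map_of_mem _ h6
    rw [h5] at h7
    exact h7

end Pool.Agent.Helper68.LI
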