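import Pool.Agent.Helper68.LI.Basic0

/-!
# LI-01: the normalizer of `U` (MP_5ecade_al, project LI)

`g = u n u'` by `h.cover` (`DC U n g`); `n = u⁻¹ g u'⁻¹` normalizes `U`, so `n ∈ TT P N` by `h.normU`, and `g = u (n u' n⁻¹) n` with
`n u' n⁻¹ ∈ U` (`h.normT`, Basic0.lean).
-/

set_option autoImplicit false

namespace Pool.Agent.Helper68.LI

open Pool.Agent.Helper81.TD

theorem BN0.norm_U {K : Type} [Group K] {p : ℕ} {P U N : Subgroup K} (h : BN0 p P U N) {g : K}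
    (hg : ∀ u ∈ U, g * u * g⁻¹ ∈ U) : ∃ u ∈ U, ∃ t ∈ TT P N, g = u * t := by
  obtain ⟨n, hn, u, hu, u', hu', e⟩ := h.cover g
  have h1 : n ∈ TT P N := by
    refine (h.normU n hn).1 fun v hv => ?_
    have h2 := hg _ (U.mul_mem (U.mul_mem (U.inv_mem hu') hv) hu')
    have h3 := U.mul_mem (U.mul_mem (U.inv_mem hu) h2) hu
    rw [e] at h3
    convert h3 using 1
    group
  refine ⟨u * (n * u' * n⁻¹), U.mul_mem hu (h.normT h1 hu'), n, h1, ?_⟩
  rw [e]
  group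

end Pool.Agent.Helper68.LI
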