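import Pool.Agent.Helper68.LI.Defs
import Pool.Agent.Helper68.LI.Avg

/-!
# LI-09: extension of the retraction (MP_5ecade_al, project LI)

`C = {v ∈ W | ζ v = 1}` is a subgroup of `W'`, normalized by `V` and by `T`, and `A = W' ⧸ C` is abelian (`ζ ⁅g, w⁆ = 1` for `g, w ∈ W' ≤ V`). `Q` acts on `A` by conjugation
(`Q ≤ T`). Let `Z` be the image of `W` in `A`. `Z` is finite; `w ↦ ζ w` induces an injection of `Z` into the center of `K`, and `|Z|` divides the order of the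
center. `h1` of `exists_avg` (Avg.lean): `x w x⁻¹ w⁻¹ ∈ C` by `h.conjT`. `h2` of `exists_avg`: if the class of `v ∈ W'` is fixed by `Q` then `⁅x, v⁆ ∈ C ≤ W` for all `x ∈ Q`, so
`v ∈ W` by `hf`. So `exists_avg` gives `ζ₀ : A →* A`; for `v ∈ W'` choose `n ∈ W` whose class is `ζ₀ (class of v)` and let `ζ' v = ζ n`: it depends only on the class (if
`n, n' ∈ W` have the same class then `n⁻¹ n' ∈ C`). `mul`: `n n'` for the product. `id`: for `z` central the class lies in `Z` and `n = z` works (`hZ`). `conjT`: `ψ` =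
conjugation with `t` on `A`: it commutes with `Q` (`hQc`) and fixes `Z` (`h.conjT`). `conjV`: `g v g⁻¹ = ⁅g, v⁆ v` and `⁅g, v⁆ ∈ C` (`hc`, `h1`), so the classes are equal.
(If it is more convenient: instead of a quotient group, `exists_avg` may be replaced by anything else.)
-/

set_option autoImplicit false

open scoped commutatorElement

namespace Pool.Agent.Helper68.LI

open Pool.Agent.Helper81.TD

section aux

variable {K : Type} [Group K] {V T W W' : Subgroup K} {ζ : K → K}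

private theorem z_one (h : Ret V T W ζ) : ζ 1 = 1 := h.id 1 (Subgroup.one_mem _)

private theorem z_inv (h : Ret V T W ζ) {w : K} (hw : w ∈ W) : ζ w⁻¹ * ζ w = 1 := by
  rw [← h.mul _ (W.inv_mem hw) _ hw, inv_mul_cancel, z_one h]

private theorem z_pow (h : Ret V T W ζ) {w : K} (hw : w ∈ W) (n : ℕ) : ζ (w ^ n) = ζ w ^ n := by
  induction n with
  | zero => rw [pow_zero, pow_zero, z_one h]
  | succ n ih => rw [pow_succ, pow_succ, h.mul _ (W.pow_mem hw n) _ hw, ih]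

private def CC (h : Ret V T W ζ) (W' : Subgroup K) : Subgroup W' where
  carrier := {w | (w : K) ∈ W ∧ ζ (w : K) = 1}
  one_mem' := ⟨W.one_mem, z_one h⟩
  mul_mem' := by
    rintro a b ⟨ha, ha'⟩ ⟨hb, hb'⟩
    refine ⟨W.mul_mem ha hb, ?_⟩
    show ζ ((a : K) * (b : K)) = 1
    rw [h.mul _ ha _ hb, ha', hb', mul_one]
  inv_mem' := by
    rintro a ⟨ha, ha'⟩
    refine ⟨W.inv_mem ha, ?_⟩
    show ζ (a : K)⁻¹ = 1
    have := z_inv h ha
    rwa [ha', mul_one] at this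

private theorem mem_CC (h : Ret V T W ζ) (w : W') :
    w ∈ CC h W' ↔ (w : K) ∈ W ∧ ζ (w : K) = 1 := Iff.rfl

private theorem conj_mem (hW : W ≤ W') (hc : ∀ g ∈ V, ∀ w ∈ W', ⁅g, w⁆ ∈ W) {g w : K} (hg : g ∈ V)
    (hw : w ∈ W) : g * w * g⁻¹ ∈ W := by
  have h1 := W.mul_mem (hc g hg w (hW hw)) hw
  rwa [commutatorElement_def, inv_mul_cancel_right] at h1

private theorem CC_normal (h : Ret V T W ζ) (hW : W ≤ W') (hV : W' ≤ V)
    (hc : ∀ g ∈ V, ∀ w ∈ W', ⁅g, w⁆ ∈ W) : (CC h W').Normal := by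
  constructor
  rintro a ⟨ha, ha'⟩ g
  refine ⟨conj_mem hW hc (hV g.2) ha, ?_⟩
  show ζ ((g : K) * (a : K) * (g : K)⁻¹) = 1
  rw [h.conjV _ (hV g.2) _ ha, ha']

private theorem CC_comm (h : Ret V T W ζ) (hV : W' ≤ V)
    (hc : ∀ g ∈ V, ∀ w ∈ W', ⁅g, w⁆ ∈ W) (h1 : ∀ g ∈ V, ∀ w ∈ W', ζ ⁅g, w⁆ = 1) (a b : W') :
    (b * a)⁻¹ * (a * b) ∈ CC h W' := by
  have e : (b * a)⁻¹ * (a * b) = ⁅a⁻¹, b⁻¹⁆ := by
    rw [commutatorElement_def]
    group
  rw [e]
  exact ⟨hc _ (hV (a⁻¹).2) _ (b⁻¹).2, h1 _ (hV (a⁻¹).2) _ (b⁻¹).2⟩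

/-- conjugation with an element of `T` -/
private def cj (hT' : ∀ t ∈ T, ∀ w ∈ W', t * w * t⁻¹ ∈ W') (t : T) : W' →* W' where
  toFun w := ⟨(t : K) * w * (t : K)⁻¹, hT' t t.2 w w.2⟩
  map_one' := Subtype.ext (by simp)
  map_mul' a b := Subtype.ext (by
    show (t : K) * ((a : K) * (b : K)) * (t : K)⁻¹ =
      (t : K) * (a : K) * (t : K)⁻¹ * ((t : K) * (b : K) * (t : K)⁻¹)
    group)

private theorem cj_mem (h : Ret V T W ζ) (hT : ∀ t ∈ T, ∀ w ∈ W, t * w * t⁻¹ ∈ W)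
    (hT' : ∀ t ∈ T, ∀ w ∈ W', t * w * t⁻¹ ∈ W') (t : T) :
    CC h W' ≤ (CC h W').comap (cj hT' t) := by
  rintro a ⟨ha, ha'⟩
  refine ⟨hT t t.2 a ha, ?_⟩
  show ζ ((t : K) * (a : K) * (t : K)⁻¹) = 1
  rw [h.conjT _ t.2 _ ha, ha']

private theorem cj_W (h : Ret V T W ζ) (hT : ∀ t ∈ T, ∀ w ∈ W, t * w * t⁻¹ ∈ W)
    (hT' : ∀ t ∈ T, ∀ w ∈ W', t * w * t⁻¹ ∈ W') (t : T) (w : W') (hw : (w : K) ∈ W) :
    (cj hT' t w)⁻¹ * w ∈ CC h W' := by
  have e : ((cj hT' t w)⁻¹ : K) * w = (t : K) * (w : K)⁻¹ * (t : K)⁻¹ * w := by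
    show ((t : K) * (w : K) * (t : K)⁻¹)⁻¹ * (w : K) = _
    group
  have hm : (t : K) * (w : K)⁻¹ * (t : K)⁻¹ ∈ W := hT t t.2 _ (W.inv_mem hw)
  refine ⟨?_, ?_⟩
  · show ((cj hT' t w : W') : K)⁻¹ * (w : K) ∈ W
    rw [e]
    exact W.mul_mem hm hw
  · show ζ (((cj hT' t w : W') : K)⁻¹ * (w : K)) = 1
    rw [e, h.mul _ hm _ hw, h.conjT _ t.2 _ (W.inv_mem hw), z_inv h hw]

end aux

theorem Ret.step {K : Type} [Group K] [Finite K] {p : ℕ} [Fact p.Prime] {V T W W' : Subgroup K}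
    {ζ : K → K} (h : Ret V T W ζ) (hz : ¬ p ∣ Nat.card (Subgroup.center K))
    (hZ : Subgroup.center K ≤ W) (hW : W ≤ W') (hV : W' ≤ V)
    (hc : ∀ g ∈ V, ∀ w ∈ W', ⁅g, w⁆ ∈ W) (h1 : ∀ g ∈ V, ∀ w ∈ W', ζ ⁅g, w⁆ = 1)
    (hT : ∀ t ∈ T, ∀ w ∈ W, t * w * t⁻¹ ∈ W) (hT' : ∀ t ∈ T, ∀ w ∈ W', t * w * t⁻¹ ∈ W')
    (Q : Subgroup K) (hQ : IsPGroup p Q) (hQT : Q ≤ T) (hQc : ∀ x ∈ Q, ∀ t ∈ T, x * t = t * x)
    (hf : ∀ v ∈ W', (∀ x ∈ Q, ⁅x, v⁆ ∈ W) → v ∈ W) : ∃ ζ', Ret V T W' ζ' := by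
  classical
  obtain ⟨C, hC⟩ : ∃ C : Subgroup W', C = CC h W' := ⟨_, rfl⟩
  have hmC : ∀ w : W', w ∈ C ↔ (w : K) ∈ W ∧ ζ (w : K) = 1 := fun w => by
    rw [hC]
    exact mem_CC h w
  haveI hn : C.Normal := by
    rw [hC]
    exact CC_normal h hW hV hc
  have hab : ∀ a b : W', (b * a)⁻¹ * (a * b) ∈ C := fun a b => by
    rw [hC]
    exact CC_comm h hV hc h1 a b
  have hcj : ∀ t : T, C ≤ C.comap (cj hT' t) := fun t => by
    rw [hC]
    exact cj_mem h hT hT' t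
  have hcW : ∀ (t : T) (w : W'), (w : K) ∈ W → (cj hT' t w)⁻¹ * w ∈ C := fun t w hw => by
    rw [hC]
    exact cj_W h hT hT' t w hw
  letI cg : CommGroup (W' ⧸ C) :=
    { (inferInstance : Group (W' ⧸ C)) with
      mul_comm := by
        intro x y
        induction x using QuotientGroup.induction_on with
        | H a =>
        induction y using QuotientGroup.induction_on with
        | H b =>
        rw [← QuotientGroup.mk_mul, ← QuotientGroup.mk_mul]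
        exact (QuotientGroup.eq.mpr (hab a b)).symm }
  let qj : T → (W' ⧸ C) →* (W' ⧸ C) := fun t => QuotientGroup.map C C (cj hT' t) (hcj t)
  have qj_mk : ∀ (t : T) (w : W'), qj t (QuotientGroup.mk w) = QuotientGroup.mk (cj hT' t w) :=
    fun t w => rfl
  letI act : MulDistribMulAction Q (W' ⧸ C) :=
    { smul := fun x a => qj ⟨x, hQT x.2⟩ a
      one_smul := by
        intro a
        induction a using QuotientGroup.induction_on with
        | H w =>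
        show (QuotientGroup.mk (cj hT' ⟨((1 : Q) : K), _⟩ w) : W' ⧸ C) = QuotientGroup.mk w
        congr 1
        apply Subtype.ext
        show ((1 : Q) : K) * (w : K) * ((1 : Q) : K)⁻¹ = w
        simp
      mul_smul := by
        intro x y a
        induction a using QuotientGroup.induction_on with
        | H w =>
        show (QuotientGroup.mk (cj hT' ⟨((x * y : Q) : K), _⟩ w) : W' ⧸ C) =
          QuotientGroup.mk (cj hT' ⟨(x : K), _⟩ (cj hT' ⟨(y : K), _⟩ w))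
        congr 1
        apply Subtype.ext
        show ((x : K) * (y : K)) * (w : K) * ((x : K) * (y : K))⁻¹ =
          (x : K) * ((y : K) * (w : K) * (y : K)⁻¹) * (x : K)⁻¹
        group
      smul_mul := fun x a b => map_mul (qj ⟨x, hQT x.2⟩) a b
      smul_one := fun x => map_one (qj ⟨x, hQT x.2⟩) }
  have act_def : ∀ (x : Q) (a : W' ⧸ C), x • a = qj ⟨x, hQT x.2⟩ a := fun x a => rfl
  let Z : Subgroup (W' ⧸ C) := (W.subgroupOf W').map (QuotientGroup.mk' C)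
  have memZ : ∀ a : W' ⧸ C, a ∈ Z ↔ ∃ w : W', (w : K) ∈ W ∧ QuotientGroup.mk w = a := by
    intro a
    constructor
    · rintro ⟨w, hw, rfl⟩
      exact ⟨w, Subgroup.mem_subgroupOf.mp hw, rfl⟩
    · rintro ⟨w, hw, rfl⟩
      exact ⟨w, Subgroup.mem_subgroupOf.mpr hw, rfl⟩
  haveI : Finite Z := inferInstance
  -- classes determine the value of `ζ`
  have key : ∀ a b : W', (a : K) ∈ W → (b : K) ∈ W →
      (QuotientGroup.mk a : W' ⧸ C) = QuotientGroup.mk b → ζ (a : K) = ζ (b : K) := by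
    intro a b ha hb hab'
    have h3 := ((hmC _).mp (QuotientGroup.eq.mp hab')).2
    have h4 : (b : K) = (a : K) * (((a⁻¹ * b : W') : K)) := by
      show (b : K) = (a : K) * ((a : K)⁻¹ * (b : K))
      group
    have h5 : ((a⁻¹ * b : W') : K) ∈ W := W.mul_mem (W.inv_mem ha) hb
    rw [h4, h.mul _ ha _ h5, h3, mul_one]
  have hzZ : ¬ p ∣ Nat.card Z := by
    intro hd
    obtain ⟨z, hz1⟩ := exists_prime_orderOf_dvd_card' p hd
    obtain ⟨w, hw, hwz⟩ := (memZ z.1).mp z.2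
    have hzp : (z : W' ⧸ C) ^ p = 1 := by
      have : z ^ p = 1 := by rw [← hz1, pow_orderOf_eq_one]
      have h2 := congrArg Subtype.val this
      simpa using h2
    rw [← hwz, ← QuotientGroup.mk_pow] at hzp
    have h3 := ((hmC _).mp ((QuotientGroup.eq_one_iff _).mp hzp)).2
    have h4 : ζ (w : K) ^ p = 1 := by
      rw [← z_pow h hw]
      exact h3
    have h5 : ζ (w : K) ≠ 1 := by
      intro h6
      have h7 : w ∈ C := (hmC w).mpr ⟨hw, h6⟩
      have h8 : (z : W' ⧸ C) = 1 := by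
        rw [← hwz]
        exact (QuotientGroup.eq_one_iff _).mpr h7
      have h9 : z = 1 := Subtype.ext h8
      rw [h9, orderOf_one] at hz1
      exact (Fact.out : p.Prime).one_lt.ne hz1
    have h6 : orderOf (⟨ζ (w : K), h.mem _ hw⟩ : Subgroup.center K) = p := by
      apply orderOf_eq_prime
      · apply Subtype.ext
        exact h4
      · intro h7
        exact h5 (congrArg Subtype.val h7)
    apply hz
    rw [← h6]
    exact orderOf_dvd_natCard _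
  have hfixT : ∀ z ∈ Z, ∀ t : T, qj t z = z := by
    intro z hz' t
    obtain ⟨w, hw, rfl⟩ := (memZ z).mp hz'
    rw [qj_mk]
    exact QuotientGroup.eq.mpr (hcW t w hw)
  obtain ⟨ζ₀, a1, a2, a3⟩ := exists_avg (A := W' ⧸ C) hQ Z hzZ
    (fun z hz' x => hfixT z hz' ⟨x, hQT x.2⟩) (by
      intro a ha
      induction a using QuotientGroup.induction_on with
      | H v =>
      refine (memZ _).mpr ⟨v, ?_, rfl⟩
      refine hf v v.2 fun x hx => ?_
      have h2 := ha ⟨x, hx⟩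
      rw [act_def, qj_mk] at h2
      have h3 : (cj hT' ⟨x, hQT hx⟩ v) * v⁻¹ ∈ C := by
        rw [← QuotientGroup.eq_one_iff, QuotientGroup.mk_mul, QuotientGroup.mk_inv, h2,
          mul_inv_cancel]
      exact ((hmC _).mp h3).1)
  -- the new retraction
  have hex : ∀ v : W', ∃ n : W', (n : K) ∈ W ∧ (QuotientGroup.mk n : W' ⧸ C) =
      ζ₀ (QuotientGroup.mk v) := fun v => (memZ _).mp (a1 _)
  choose nn hnW hnn using hex
  let ζ' : K → K := fun v => if hv : v ∈ W' then ζ (nn ⟨v, hv⟩ : K) else 1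
  have hζ' : ∀ (v : W') (n : W'), (n : K) ∈ W → (QuotientGroup.mk n : W' ⧸ C) =
      ζ₀ (QuotientGroup.mk v) → ζ' (v : K) = ζ (n : K) := by
    intro v n hn' e
    have : ζ' (v : K) = ζ (nn v : K) := by
      show (if hv : (v : K) ∈ W' then ζ (nn ⟨v, hv⟩ : K) else 1) = _
      rw [dif_pos v.2]
    rw [this]
    exact key _ _ (hnW v) hn' (by rw [hnn, e])
  have hcls : ∀ v w : W', (QuotientGroup.mk v : W' ⧸ C) = QuotientGroup.mk w →
      ζ' (v : K) = ζ' (w : K) := by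
    intro v w e
    rw [hζ' v (nn w) (hnW w) (by rw [hnn, e]), hζ' w (nn w) (hnW w) (hnn w)]
  refine ⟨ζ', ?_, ?_, ?_, ?_, ?_⟩
  · intro v hv
    rw [hζ' ⟨v, hv⟩ (nn ⟨v, hv⟩) (hnW _) (hnn _)]
    exact h.mem _ (hnW _)
  · intro v hv w hw
    have e1 := hζ' ⟨v, hv⟩ (nn ⟨v, hv⟩) (hnW _) (hnn _)
    have e2 := hζ' ⟨w, hw⟩ (nn ⟨w, hw⟩) (hnW _) (hnn _)
    have e3 := hζ' (⟨v, hv⟩ * ⟨w, hw⟩) (nn ⟨v, hv⟩ * nn ⟨w, hw⟩)
      (W.mul_mem (hnW _) (hnW _)) (by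
        rw [QuotientGroup.mk_mul, hnn, hnn, QuotientGroup.mk_mul, map_mul])
    have e4 : ζ' (v * w) = ζ ((nn ⟨v, hv⟩ : K) * (nn ⟨w, hw⟩ : K)) := e3
    rw [e4, h.mul _ (hnW _) _ (hnW _)]
    exact (congrArg₂ (· * ·) e1 e2).symm
  · intro z hz'
    have hzW : z ∈ W := hZ hz'
    have e : (QuotientGroup.mk (⟨z, hW hzW⟩ : W') : W' ⧸ C) =
        ζ₀ (QuotientGroup.mk (⟨z, hW hzW⟩ : W')) :=
      (a2 _ ((memZ _).mpr ⟨⟨z, hW hzW⟩, hzW, rfl⟩)).symm
    have := hζ' ⟨z, hW hzW⟩ ⟨z, hW hzW⟩ hzW e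
    exact this.trans (h.id z hz')
  · intro g hg v hv
    have hm : ⁅g, v⁆ ∈ W := hc g hg v hv
    have hgv : g * v * g⁻¹ ∈ W' := by
      have h2 := W'.mul_mem (hW hm) hv
      rwa [commutatorElement_def, inv_mul_cancel_right] at h2
    have e : (QuotientGroup.mk (⟨g * v * g⁻¹, hgv⟩ : W') : W' ⧸ C) =
        QuotientGroup.mk (⟨v, hv⟩ : W') := by
      have h2 : (⟨g * v * g⁻¹, hgv⟩ : W') = (⟨⁅g, v⁆, hW hm⟩ : W') * ⟨v, hv⟩ := by
        apply Subtype.ext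
        show g * v * g⁻¹ = ⁅g, v⁆ * v
        rw [commutatorElement_def, inv_mul_cancel_right]
      have h3 : (⟨⁅g, v⁆, hW hm⟩ : W') ∈ C := (hmC _).mpr ⟨hm, h1 g hg v hv⟩
      rw [h2, QuotientGroup.mk_mul, (QuotientGroup.eq_one_iff _).mpr h3, one_mul]
    exact hcls ⟨g * v * g⁻¹, hgv⟩ ⟨v, hv⟩ e
  · intro t ht v hv
    have htv := hT' t ht v hv
    have e : ζ₀ (QuotientGroup.mk (⟨t * v * t⁻¹, htv⟩ : W')) =
        ζ₀ (QuotientGroup.mk (⟨v, hv⟩ : W')) := by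
      refine a3 (qj ⟨t, ht⟩) (fun z hz' => hfixT z hz' ⟨t, ht⟩) ?_ (QuotientGroup.mk (⟨v, hv⟩ : W'))
      intro x a
      induction a using QuotientGroup.induction_on with
      | H w =>
      rw [act_def, act_def, qj_mk, qj_mk, qj_mk, qj_mk]
      congr 1
      apply Subtype.ext
      show t * ((x : K) * (w : K) * (x : K)⁻¹) * t⁻¹ = (x : K) * (t * (w : K) * t⁻¹) * (x : K)⁻¹
      have hx := hQc x x.2 t ht
      have h2 : t * ((x : K) * (w : K) * (x : K)⁻¹) * t⁻¹ =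
          (t * (x : K)) * (w : K) * (t * (x : K))⁻¹ := by group
      have h3 : (x : K) * (t * (w : K) * t⁻¹) * (x : K)⁻¹ =
          ((x : K) * t) * (w : K) * ((x : K) * t)⁻¹ := by group
      rw [h2, h3, hx]
    have e1 := hζ' ⟨t * v * t⁻¹, htv⟩ (nn ⟨v, hv⟩) (hnW _) (by rw [hnn, e])
    have e2 := hζ' ⟨v, hv⟩ (nn ⟨v, hv⟩) (hnW _) (hnn _)
    exact e1.trans e2.symm

end Pool.Agent.Helper68.LI
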