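import Pool.Agent.Helper68.LI.NormU

/-!
# LI-02: `U` is a Sylow `r`-subgroup (MP_5ecade_al, project LI)

Let `S` be a Sylow `r`-subgroup with `U ≤ S` (`hr.exists_le_sylow`). If `U < S` then (normalizer condition, see the proof of `BN.sylow_le` in
Helper81/TD/GA.lean) there is `g ∈ S`, `g ∉ U`, which normalizes `U`: `g = u t` (`h.norm_U`), `t = u⁻¹ g ∈ S` has order a power of `r`, and this order divides
`|TT P N|` (prime to `r`), so `t = 1` and `g ∈ U`.
-/

set_option autoImplicit false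

namespace Pool.Agent.Helper68.LI

open Pool.Agent.Helper81.TD

theorem BN0.sylow_U {K : Type} [Group K] [Finite K] {p r : ℕ} [Fact r.Prime] {P U N : Subgroup K}
    (h : BN0 p P U N) (hr : IsPGroup r U) (ht : ¬ r ∣ Nat.card (TT P N)) :
    ∃ S : Sylow r K, (S : Subgroup K) = U := by
  obtain ⟨S, hS⟩ := hr.exists_le_sylow
  refine ⟨S, ?_⟩
  by_contra hne
  have hSU : ¬ (S : Subgroup K) ≤ U := fun hle => hne (le_antisymm hle hS)
  have hlt : U.subgroupOf (S : Subgroup K) < ⊤ := by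
    rw [lt_top_iff_ne_top]
    intro e
    exact hSU (Subgroup.subgroupOf_eq_top.mp e)
  have hnil : Group.IsNilpotent (S : Subgroup K) := S.isPGroup'.isNilpotent
  have hnc := Group.normalizerCondition_of_isNilpotent (G := (S : Subgroup K)) _ hlt
  obtain ⟨g, hg, hgU⟩ := Set.exists_of_ssubset hnc
  have hgU' : (g : K) ∉ U := fun h => hgU (Subgroup.mem_subgroupOf.mpr h)
  have hg1 : ∀ u ∈ U, (g : K) * u * (g : K)⁻¹ ∈ U := by
    intro u hu
    have := (Subgroup.mem_normalizer_iff.mp hg ⟨u, hS hu⟩).mp (Subgroup.mem_subgroupOf.mpr hu)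
    exact Subgroup.mem_subgroupOf.mp this
  obtain ⟨u, hu, t, ht', e⟩ := h.norm_U hg1
  have htS : t ∈ (S : Subgroup K) := by
    have : t = u⁻¹ * (g : K) := by rw [e]; group
    rw [this]
    exact mul_mem (inv_mem (hS hu)) g.2
  obtain ⟨k, hk⟩ := S.isPGroup' ⟨t, htS⟩
  have hk' : t ^ r ^ k = 1 := by
    have := congrArg (fun z : (S : Subgroup K) => (z : K)) hk
    simpa using this
  have h1 : orderOf t ∣ r ^ k := orderOf_dvd_of_pow_eq_one hk'
  have h2 : orderOf t ∣ Nat.card (TT P N) := Subgroup.orderOf_dvd_natCard _ ht'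
  have hcop : Nat.Coprime (r ^ k) (Nat.card (TT P N)) :=
    Nat.Coprime.pow_left k (((Fact.out : r.Prime).coprime_iff_not_dvd).mpr ht)
  have h3 : orderOf t = 1 := Nat.eq_one_of_dvd_coprimes hcop h1 h2
  have h4 : t = 1 := orderOf_eq_one_iff.mp h3
  apply hgU'
  rw [e, h4, mul_one]
  exact hu

end Pool.Agent.Helper68.LI
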